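import Pool.Agent.Helper70.ML.St

/-!
# Project ML (MP_a2f62e_al), part S: special linear groups over finite fields

THEOREM. `F` a finite field with `q` elements, `n ≥ 2`, `n ≥ 3` or `-1` a square in `F`. Every quotient `Q` of `SL_n(F)`
by a central subgroup is mixable and `mixlen Q ≤ 6 log₂ |Q|`.

Plan: `T = Hs 1` diagonal matrices, `Hs j` = block matrices (block of the coordinates `< j`, diagonal elsewhere),
`Pj j` = the matrices in `Hs (j+1)` whose column `j` is diagonal (stabiliser of the line of `e_j`). A function on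
`SL_n(F)` is made invariant under `T` (TOR), then under `Pj 1, Hs 2, Pj 2, Hs 3, ..., Hs n = ⊤` (COL, UNI), by averages over root
groups (ROOT) and lazy monomial matrices.
-/

set_option autoImplicit false

namespace Pool.Agent.Helper70.ML

open Pool.Agent.Helper75.MX
open scoped commutatorElement Nat

/-- the special linear group -/
abbrev SLn (n : ℕ) (F : Type) [Field F] : Type := Matrix.SpecialLinearGroup (Fin n) F

section

variable {n : ℕ} {F : Type} [Field F]

/-- `1 + a E_{ij}` (and `1` if `i = j`) -/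
noncomputable def tv (i j : Fin n) (a : F) : SLn n F :=
  if h : i ≠ j then ⟨Matrix.transvection i j a, Matrix.det_transvection_of_ne i j h a⟩ else 1

/-- average over the root group `{1 + a E_{ij}}` -/
noncomputable def avR (i j : Fin n) (f : SLn n F → ℝ) : SLn n F → ℝ :=
  (1 / (Nat.card F : ℝ)) • ∑ᶠ a : F, L (tv i j a) f

/-- `g` is diagonal outside the block of the coordinates `< j` -/
def InH (j : ℕ) (g : SLn n F) : Prop := ∀ a b : Fin n, a ≠ b → (j ≤ (a : ℕ) ∨ j ≤ (b : ℕ)) → g.1 a b = 0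

/-- `g` is in `InH (j+1)` and column `j` is diagonal -/
def InP (j : ℕ) (g : SLn n F) : Prop :=
  InH (j + 1) g ∧ ∀ a b : Fin n, a ≠ b → (b : ℕ) = j → g.1 a b = 0

/-- `f` is invariant under all `g` with `P g` -/
def Inv (P : SLn n F → Prop) (f : SLn n F → ℝ) : Prop := ∀ g, P g → L g f = f

end

/-- GRP. `InH j` and `InP j` define subgroups. PROOF. Products: clear from the matrix product. Inverses: `G` is finite,
`g⁻¹` is a power of `g`. -/
def StGRP : Prop := ∀ (n : ℕ) (F : Type) [Field F] [Finite F] (j : ℕ),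
  (∃ K : Subgroup (SLn n F), ∀ g, g ∈ K ↔ InH j g) ∧ (∃ K : Subgroup (SLn n F), ∀ g, g ∈ K ↔ InP j g)

/-- AVG. Averaging over a mixable subgroup. PROOF. The list of `K` gives `ext0 K (uni K) = (1/|K|) 1_K` from `dlt G`
(`ext0_app` of `Helper75/MX/Comb.lean`); applied to `f` the same list gives the convolution: for every list `l` of
elements of `G` one has `app l f = ∑_x (app l (dlt G)) x • L x f` (induction on `l`). -/
def StAVG : Prop := ∀ (G : Type) [Group G] [Finite G] (K : Subgroup G) (k : ℕ), Mix K k →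
  ∀ f : G → ℝ, Reach k f ((1 / (Nat.card K : ℝ)) • ∑ᶠ x : K, L (x : G) f)

/-- DIH. Generalised dihedral subgroups. PROOF. `K = {t, t w : t ∈ A}` is a group (`w t = t⁻¹ w`, `w² ∈ A`) of order
`2 |A|`. It is solvable (`A` is commutative of index 2). `TS K`: `N` normal of odd index; the image of `w` in `K ⧸ N` has order
dividing `4` and odd, so `w ∈ N`; for `t ∈ A`: `t w t⁻¹ w⁻¹ = t²` (as `w t⁻¹ w⁻¹ = t`) is in `N`, so all elements of `K ⧸ N`
have order at most 2, and `K ⧸ N` is trivial. `Helper75.MX.main`: `2 ^ k ≤ wt (2 |A|) ≤ (2 |A|) ^ 6`. -/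
def StDIH : Prop := ∀ (G : Type) [Group G] [Finite G] (A : Subgroup G) (w : G),
  (∀ x ∈ A, ∀ y ∈ A, x * y = y * x) → w ∉ A → w * w ∈ A → w ^ 4 = 1 → (∀ t ∈ A, w * t * w⁻¹ = t⁻¹) →
  ∃ (K : Subgroup G) (k : ℕ), (∀ g, g ∈ K ↔ g ∈ A ∨ ∃ t ∈ A, g = t * w) ∧ Mix K k ∧ 2 ^ k ≤ (2 * Nat.card A) ^ 6

/-- TOR. Invariance under the diagonal matrices.
PROOF. Let `T_i` be the group of the diagonal matrices with entries `1` except at `i, i+1` (entries `a, a⁻¹`),
`|T_i| = q - 1`, and `w_i` the monomial matrix with `e_i ↦ e_{i+1}`, `e_{i+1} ↦ -e_i`: DIH gives `K_i` and `k_i`; let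
`kd` be the number of steps, `2 ^ kd ≤ (2(q-1)) ^ 6` (all `K_i` are conjugate or take the maximum). CLAIM: if `f` is invariant
under `T^i` = diagonal matrices with entries `1` at the places `> i`, the average of `f` over `K_i` (AVG) is invariant
under `T^{i+1}`. It is `(1/2)(e f + e (L w_i f))`, `e` the average over `T_i`. `e f` is invariant under `T_i` and `T^i` (all diagonal
matrices commute), which generate `T^{i+1}`; `L w_i f` is invariant under `w_i T^i w_i⁻¹` = diagonal matrices of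
`T^{i+1}` with entry `1` at `i`, and `T^{i+1} = T_i (w_i T^i w_i⁻¹)`. Start with `T^0 = 1`; after `n - 1` averages the function
is invariant under `T^{n-1}` = all diagonal matrices = `InH 1`. -/
def StTOR : Prop := ∀ (n : ℕ) (F : Type) [Field F] [Finite F], 2 ≤ n →
  ∃ kd : ℕ, 2 ^ kd ≤ (2 * (Nat.card F - 1)) ^ 6 ∧ ∀ f : SLn n F → ℝ, ∃ f' : SLn n F → ℝ,
    Reach ((n - 1) * kd) f f' ∧ Inv (InH 1) f'

/-- ROOT. Averages over root groups.
PROOF. Let `i ≠ j`. There is a diagonal `d` with `d (1 + a E_{ij}) d⁻¹ = 1 - a E_{ij}`, i.e. `d_i / d_j = -1`: `n ≥ 3`: entries `-1` at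
`i` and at some `m ≠ i, j`, otherwise `1`; `n = 2`: `ι` and `-ι`, `ι² = -1`. `q = p^e`, `b_1, ..., b_e` a basis of `F` over `ZMod p`. `p` odd:
`f_0 = f`, `f_k = av (tv i j b_k) p f_{k-1}` costs `cost p` steps by `reach_av` (`L d f_{k-1} = f_{k-1}`; `av_L` shows
`L d f_k = f_k`), `f_e = avR i j f` (`∑_{a ∈ F}` = sum over the coordinates; `tv i j a * tv i j b = tv i j (a+b)`). `cq = e * cost p`:
`2 ^ (2 e cost p + 1) ≤ (2 ^ (2 + 2 cost p)) ^ e ≤ (p ^ 6) ^ e` (`cost_bound`). `p = 2`: `av w 2 f = lz w (1/2) f`, `cq = e`.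
Invariance of `avR i j f` under the diagonal matrices `t`: `L t (L (tv a) f) = L (tv (c a)) (L t f)`, `c = t_i / t_j ≠ 0`. -/
def StROOT : Prop := ∀ (n : ℕ) (F : Type) [Field F] [Finite F], 2 ≤ n → (3 ≤ n ∨ IsSquare (-1 : F)) →
  ∃ cq : ℕ, 2 ^ (2 * cq + 1) ≤ Nat.card F ^ 6 ∧ ∀ (i j : Fin n), i ≠ j → ∀ f : SLn n F → ℝ,
    Inv (InH 1) f → Reach cq f (avR i j f) ∧ Inv (InH 1) (avR i j f)

/-- COL. From `InH j` to `InP j`. (`InH 0` and `InH 1` are the same; `1 ≤ j < n`.)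
PROOF. Put `f_0 = f`, `f_{i+1} = avR j i f_i` for `i = 0, ..., j-1` (`i < j` as elements of `Fin n`): `j * cq` steps by the
hypothesis; all `f_i` are `InH 1`-invariant. The matrices `tv j i a` with `i < j` commute with each other; `f' = f_j`
is the average of `f` over the group `V` of the matrices `1 + ∑_{i<j} a_i E_{ji}`, so it is invariant under `V`; `V` is
normalised by the `g` with `InH j g`, so `f'` is invariant under these (`L g (L v f) = L (g v g⁻¹) (L g f)`). Every `g` with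
`InP j g` is a product `g = v h`, `v ∈ V`, `InH j h`: row `j` of `g` has entries `g_{ji}`, `i ≤ j`, `g_{jj} ≠ 0` (the determinant
is not zero), `h` is `g` with the entries `g_{ji}`, `i < j`, replaced by `0`; `v = g h⁻¹`. -/
def StCOL : Prop := ∀ (n : ℕ) (F : Type) [Field F] [Finite F] (j : ℕ), 1 ≤ j → j < n → ∀ cq : ℕ,
  (∀ (i j : Fin n), i ≠ j → ∀ f : SLn n F → ℝ,
    Inv (InH 1) f → Reach cq f (avR i j f) ∧ Inv (InH 1) (avR i j f)) →
  ∀ f : SLn n F → ℝ, Inv (InH j) f → ∃ f' : SLn n F → ℝ, Reach (j * cq) f f' ∧ Inv (InP j) f'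

/-- UNI. From `InP j` to `InH (j+1)`.
PROOF. ORB for `X = Fin n → F` with the action `g • v = g v` (`Matrix.mulVec`; define the `MulAction`), `K` = the group of
`InH (j+1)`, `H` = the group of `InP j`, `x₀ = e_j`: `g e_j = e_j` and `InH (j+1) g` imply `InP j g`. For `k ∈ K`: `k e_j` is column `j` of `k`,
`k ∈ H` iff it is a multiple of `e_j`. So `Φ 1_{D_j} = f` where for `i ≤ j`
`D_i = {v : v_a = 0 for a < i and for a > j, v_i ≠ 0}` (`(q-1) q^{j-i}` vectors); let `N_i = |D_0 ∪ ... ∪ D_i|` (so `N_j = q^{j+1} - 1`) and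
`μ_i = (q-1) [ ∑_{m>i} 1_{D_m} / N_j + (N_i / N_j) 1_{D_i} / |D_i| ]`, so `μ_j = 1_{D_j}` (`|D_j| = q - 1`), `μ_0` = const. on the nonzero vectors supported in
`{0..j}`, so `Φ μ_0` is invariant under `K` (for `k ∈ K`, `k e_j` is such a vector). STEP `i+1 → i` (`0 ≤ i < j`): `w` the
monomial matrix `e_i ↦ e_{i+1}`, `e_{i+1} ↦ -e_i` (in `K`), `p = N_i / N_{i+1}`; `lz w p (Φ μ_{i+1}) = Φ (lzX w p μ_{i+1})`, and
`avR (i+1) i (Φ μ) = Φ (average of μ over the matrices 1 + a E_{i+1,i})`. `w` fixes the vectors of `D_m`, `m > i + 1`, and maps `D_{i+1}` onto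
`{v : v_i ≠ 0, v_{i+1} = 0, v_a = 0 for a < i, a > j}`; `1 + a E_{i+1,i}` fixes `D_m`, `m ≥ i+1`, and the average of the last set's
indicator is `(1/q) 1_{D_i}`. So the result is `μ_i`. `Φ μ` is `InH 1`-invariant whenever `μ` is invariant under
diagonal matrices, in particular before each average. Cost `1 + cq` for each of the `j` steps. -/
def StUNI : Prop := ∀ (n : ℕ) (F : Type) [Field F] [Finite F] (j : ℕ), 1 ≤ j → j < n → ∀ cq : ℕ,
  (∀ (i j : Fin n), i ≠ j → ∀ f : SLn n F → ℝ,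
    Inv (InH 1) f → Reach cq f (avR i j f) ∧ Inv (InH 1) (avR i j f)) →
  ∀ f : SLn n F → ℝ, Inv (InP j) f → ∃ f' : SLn n F → ℝ, Reach (j * (1 + cq)) f f' ∧ Inv (InH (j + 1)) f'

/-- CNT. The order of `SL_n(F)`.
PROOF. `|GL_n(F)| = ∏_{i<n} (q^n - q^i)` (`Matrix.card_GL_field`), `det : GL_n → Fˣ` is surjective with kernel `SL_n`, so
`|SL_n(F)| = q^{n(n-1)/2} ∏_{i=2}^{n} (q^i - 1)`. `c = |center|` is the number of `n`-th roots of unity
(`Matrix.SpecialLinearGroup.center_equiv_rootsOfUnity`), so `c ≤ n` and `c ≤ q - 1`. To show: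
`c (2(q-1))^{n-1} ≤ ∏_{i=2}^{n} (q^i - 1)`. `n = 2`: `q² - 1 = (q-1)(q+1)`, `q + 1 ≥ 2c` since `c ≤ 2` and `c ≤ q - 1`. `n ≥ 3`:
`(q^i - 1)/(q-1) ≥ 2^i - 1` and `3 · 7 · 15 ⋯ (2^n - 1) ≥ n 2^{n-1}`. -/
def StCNT : Prop := ∀ (n : ℕ) (F : Type) [Field F] [Finite F], 2 ≤ n →
  Nat.card (Subgroup.center (SLn n F)) * (2 * (Nat.card F - 1)) ^ (n - 1) * Nat.card F ^ (n * (n - 1) / 2) ≤
    Nat.card (SLn n F)

/-- QUO. PROOF. Map the list to the quotient (as in `ts_of_mixable`, `Helper75/MX/Final.lean`: `T N (app l (dlt G)) =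
app l' (dlt (G ⧸ N)) ∘ π`). -/
def StQUO : Prop := ∀ (G : Type) [Group G] [Finite G] (N : Subgroup G) [N.Normal] (k : ℕ), Mix G k → Mix (G ⧸ N) k

/-- SLN. PROOF. Start with `f = dlt G`. TOR: `(n-1) kd` steps to an `InH 1`-invariant function. For `j = 1, ..., n-1`: COL, UNI
(with `cq` from ROOT): `j cq + j (1 + cq)` steps to an `InH (j+1)`-invariant function. `InH n` is everything, so the
result is constant, `= uni G` (lazy steps preserve the sum `1`). Total
`k = (n-1) kd + (2 cq + 1) n(n-1)/2`, `2 ^ k ≤ (2(q-1))^{6(n-1)} q^{6 n(n-1)/2} ≤ (|SL_n| / c)^6` (CNT), `c = |center|`. QUO: the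
same `k` for the quotient, `|SL_n ⧸ N| = |SL_n| / |N| ≥ |SL_n| / c`. `exists_isMixing`, logarithms as in `solvable_bound`. -/
def StSLN : Prop := ∀ (n : ℕ) (F : Type) [Field F] [Finite F], 2 ≤ n → (3 ≤ n ∨ IsSquare (-1 : F)) →
  ∀ (N : Subgroup (Matrix.SpecialLinearGroup (Fin n) F)) [N.Normal],
    N ≤ Subgroup.center (Matrix.SpecialLinearGroup (Fin n) F) →
    Mixable (Matrix.SpecialLinearGroup (Fin n) F ⧸ N) ∧
      (mixlen (Matrix.SpecialLinearGroup (Fin n) F ⧸ N) : ℝ) ≤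
        6 * Real.logb 2 (Nat.card (Matrix.SpecialLinearGroup (Fin n) F ⧸ N))

end Pool.Agent.Helper70.ML
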