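import Pool.Agent.Helper82.ML.M_ISO
import Pool.Agent.Helper82.ML.M_HYP
import Pool.Agent.Helper84.ML.M_SOL
import Pool.Agent.Helper75.ML.M_STR
import Pool.Agent.Helper75.ML.M_STEP
import Pool.Agent.Helper75.ML.M_MAIN
import Pool.Agent.Helper80.ML.M_FIN
import Pool.Agent.Helper16.ML.M_ORB
import Pool.Agent.Helper79.ML.M_MO
import Pool.Agent.Helper72.ML.M_PT0
import Pool.Agent.Helper28.ML.M_PTS
import Pool.Agent.Helper71.ML.M_A5
import Pool.Agent.Helper82.ML.M_AN
import Pool.Agent.Helper82.ML.M_CAR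
import Pool.Agent.Helper4.ML.M_GEN
import Pool.Agent.Helper57.ML.M_CEN
import Pool.Agent.Helper80.ML.M_LIF
import Pool.Agent.Helper98.ML.M_NCM
import Pool.Agent.Helper92.ML.M_REL
import Pool.Agent.Helper47.ML.M_ALT

/-!
# Project ML: assembly of parts R and A
-/

set_option autoImplicit false

namespace Pool.Agent.Helper70.ML

theorem pISO : StISO := Pool.Agent.Helper82.ML.hISO
theorem pHYP : StHYP := Pool.Agent.Helper82.ML.hHYP pISO
theorem pSOL : StSOL := Pool.Agent.Helper84.ML.hSOL pHYP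
theorem pSTR : StSTR := Pool.Agent.Helper75.ML.hSTR
theorem pSTEP : StSTEP := Pool.Agent.Helper75.ML.hSTEP
theorem pORB : StORB := Pool.Agent.Helper16.ML.hORB
theorem pMO : StMO := Pool.Agent.Helper79.ML.hMO pORB
theorem pPT0 : StPT0 := Pool.Agent.Helper72.ML.hPT0
theorem pPTS : StPTS := Pool.Agent.Helper28.ML.hPTS pPT0
theorem pA5 : StA5 := Pool.Agent.Helper71.ML.hA5
theorem pAN : StAN := Pool.Agent.Helper82.ML.hAN pISO pMO pPTS pA5
theorem pCAR : StCAR := Pool.Agent.Helper82.ML.hCAR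
theorem pGEN : StGEN := Pool.Agent.Helper4.ML.hGEN
theorem pCEN : StCEN := Pool.Agent.Helper57.ML.hCEN
theorem pLIF : StLIF := Pool.Agent.Helper80.ML.hLIF
theorem pNCM : StNCM := Pool.Agent.Helper98.ML.hNCM pLIF
theorem pREL : StREL := Pool.Agent.Helper92.ML.hREL pCEN pLIF
theorem pALT : StALT := Pool.Agent.Helper47.ML.hALT pISO pNCM pREL pCAR pGEN pAN
theorem pMAIN : StMAIN := Pool.Agent.Helper75.ML.hMAIN pHYP pSOL pSTR pSTEP pALT
theorem pFIN : StFIN := Pool.Agent.Helper80.ML.hFIN pMAIN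

end Pool.Agent.Helper70.ML
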