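import Pool.Agent.Helper70.ML.St2
import Pool.Agent.Helper16.ML.M_ORB
import Pool.Agent.Helper82.ML.M_GRP
import Pool.Agent.Helper38.ML.M_AVG
import Pool.Agent.Helper48.ML.M_DIH
import Pool.Agent.Helper92.ML.M_TOR
import Pool.Agent.Helper57.ML.M_ROOT
import Pool.Agent.Helper79.ML.M_COL
import Pool.Agent.Helper78.ML.M_UNI
import Pool.Agent.Helper84.ML.M_CNT
import Pool.Agent.Helper80.ML.M_QUO
import Pool.Agent.Helper78.ML.M_SLN

/-!
# Project ML: assembly of part S
-/

set_option autoImplicit false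

namespace Pool.Agent.Helper70.ML

theorem qORB : StORB := Pool.Agent.Helper16.ML.hORB
theorem qGRP : StGRP := Pool.Agent.Helper82.ML.hGRP
theorem qAVG : StAVG := Pool.Agent.Helper38.ML.hAVG
theorem qDIH : StDIH := Pool.Agent.Helper48.ML.hDIH
theorem qTOR : StTOR := Pool.Agent.Helper92.ML.hTOR qAVG qDIH
theorem qROOT : StROOT := Pool.Agent.Helper57.ML.hROOT
theorem qCOL : StCOL := Pool.Agent.Helper79.ML.hCOL
theorem qUNI : StUNI := Pool.Agent.Helper78.ML.hUNI qGRP qORB
theorem qCNT : StCNT := Pool.Agent.Helper84.ML.hCNT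
theorem qQUO : StQUO := Pool.Agent.Helper80.ML.hQUO
theorem qSLN : StSLN := Pool.Agent.Helper78.ML.hSLN qTOR qROOT qCOL qUNI qCNT qQUO

end Pool.Agent.Helper70.ML
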