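import Pool.Agent.Helper70.ML.All
import Pool.Agent.Helper29.ML.M_PMON
import Pool.Agent.Helper36.ML.M_PTVR
import Pool.Agent.Helper71.ML.M_PCAN
import Pool.Agent.Helper10.ML.M_PSTA
import Pool.Agent.Helper61.ML.M_PSTD
import Pool.Agent.Helper99.ML.M_PWEQ
import Pool.Agent.Helper8.ML.M_PTOR
import Pool.Agent.Helper78.ML.M_PTHK
import Pool.Agent.Helper45.ML.M_PMOO
import Pool.Agent.Helper13.ML.M_PNHK
import Pool.Agent.Helper33.ML.M_PUTR
import Pool.Agent.Helper32.ML.M_PUHK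
import Pool.Agent.Helper40.ML.M_PUDC
import Pool.Agent.Helper1.ML.M_PBRU
import Pool.Agent.Helper27.ML.M_PGEN
import Pool.Agent.Helper95.ML.M_PSPL
import Pool.Agent.Helper87.ML.M_PPBK

/-!
# Project ML: assembly of part P (covers of `PSL_n(F)`, `n ≥ 3`, with centre of odd order)
-/

set_option autoImplicit false

namespace Pool.Agent.Helper70.ML

theorem rPMON : StPMON := Pool.Agent.Helper29.ML.hPMON
theorem rPTVR : StPTVR := Pool.Agent.Helper36.ML.hPTVR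
theorem rPCAN : StPCAN := Pool.Agent.Helper71.ML.hPCAN rPMON rPTVR pLIF
theorem rPSTA : StPSTA := Pool.Agent.Helper10.ML.hPSTA rPMON rPTVR
theorem rPSTD : StPSTD := Pool.Agent.Helper61.ML.hPSTD rPMON rPTVR rPSTA
theorem rPWEQ : StPWEQ := Pool.Agent.Helper99.ML.hPWEQ rPMON
theorem rPTOR : StPTOR := Pool.Agent.Helper8.ML.hPTOR rPMON
theorem rPTHK : StPTHK := Pool.Agent.Helper78.ML.hPTHK rPMON
theorem rPMOO : StPMOO := Pool.Agent.Helper45.ML.hPMOO
theorem rPNHK : StPNHK := Pool.Agent.Helper13.ML.hPNHK rPMON rPTHK rPMOO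
theorem rPUTR : StPUTR := Pool.Agent.Helper33.ML.hPUTR
theorem rPUHK : StPUHK := Pool.Agent.Helper32.ML.hPUHK rPTVR
theorem rPUDC : StPUDC := Pool.Agent.Helper40.ML.hPUDC
theorem rPBRU : StPBRU := Pool.Agent.Helper1.ML.hPBRU rPMON rPUDC rPNHK
theorem rPGEN : StPGEN := Pool.Agent.Helper27.ML.hPGEN rPMON rPTVR
theorem rPSPL : StPSPL := Pool.Agent.Helper95.ML.hPSPL rPCAN rPSTA rPSTD rPWEQ rPTOR rPNHK rPUTR rPUHK
  rPBRU rPGEN
theorem rPPBK : StPPBK := Pool.Agent.Helper87.ML.hPPBK rPSPL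

end Pool.Agent.Helper70.ML
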