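import Pool.Agent.Helper70.ML.St2

/-!
# Project ML (MP_a2f62e_al), part P: central extensions of `SL_n(F)`, `n ≥ 3`, with kernel of odd order split

THEOREM.  `F` a finite field, `n ≥ 3`, `φ : E → SL_n(F)` surjective, `E` finite, `ker φ` central of odd order.  Then `φ` has a section.
Consequence: a finite perfect group `Q` with centre of odd order and `Q / Z(Q) = PSL_n(F)` is a quotient of `SL_n(F)` by a central subgroup.

Idea.  `X i j a` = the lift of `tv i j a` which is inverted by the involutions over sign matrices (in characteristic 2 the sign matrices are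
`1` and this says that `X i j a` has square one: the same text covers both cases).  They satisfy the Steinberg relations, the symbols are
trivial (`F` finite, kernel odd), and Bruhat's cells give the section.  All modules are independent.

Conventions: `x⁻¹` in groups, `Mono g σ c`: `g e_j = c_j e_{σ j}`.  For a kernel element `ζ`: `ζ` is central, and `ζ * ζ = 1` implies `ζ = 1`
(odd order; `StLIF` (4), or `orderOf_dvd_natCard`).  `ker φ` elements commute with everything.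
-/

set_option autoImplicit false

namespace Pool.Agent.Helper70.ML

open Pool.Agent.Helper75.MX
open scoped commutatorElement

section

variable {n : ℕ} {F : Type} [Field F] {E : Type} [Group E]

/-- monomial matrix: `g e_j = c_j e_{σ j}` -/
def Mono (g : SLn n F) (σ : Equiv.Perm (Fin n)) (c : Fin n → F) : Prop :=
  (∀ j, c j ≠ 0) ∧ ∀ i j, g.1 i j = if i = σ j then c j else 0

/-- central extension of `SL_n(F)` with kernel of odd order -/
def CE (φ : E →* SLn n F) : Prop :=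
  Function.Surjective φ ∧ φ.ker ≤ Subgroup.center E ∧ Odd (Nat.card φ.ker)

/-- canonical lifts of the root elements -/
structure Can (φ : E →* SLn n F) (X : Fin n → Fin n → F → E) : Prop where
  ce : CE φ
  map : ∀ i j a, i ≠ j → φ (X i j a) = tv i j a
  neg : ∀ i j a, i ≠ j → X i j (-a) = (X i j a)⁻¹
  eqv : ∀ (g : E) (σ : Equiv.Perm (Fin n)) (c : Fin n → F), Mono (φ g) σ c → ∀ i j a, i ≠ j →
    g * X i j a * g⁻¹ = X (σ i) (σ j) (c i * (c j)⁻¹ * a)

/-- the Steinberg relations -/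
structure Stb (φ : E →* SLn n F) (X : Fin n → Fin n → F → E) : Prop extends Can φ X where
  add : ∀ i j a b, i ≠ j → X i j a * X i j b = X i j (a + b)
  com : ∀ i j k l a b, i ≠ j → k ≠ l → j ≠ k → i ≠ l → X i j a * X k l b = X k l b * X i j a
  cmm : ∀ i j k a b, i ≠ j → j ≠ k → i ≠ k →
    X i j a * X j k b * (X i j a)⁻¹ * (X j k b)⁻¹ = X i k (a * b)

/-- the elements `w_{ij}(a)` -/
def Wr (X : Fin n → Fin n → F → E) (i j : Fin n) (a : F) : E := X i j a * X j i (-a⁻¹) * X i j a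

/-- the elements `h_{ij}(a)` -/
def Hr (X : Fin n → Fin n → F → E) (i j : Fin n) (a : F) : E := Wr X i j a * (Wr X i j 1)⁻¹

/-- the diagonal of `w_{ij}(a)` -/
def wc (i j : Fin n) (a : F) : Fin n → F := fun k => if k = i then -a⁻¹ else if k = j then a else 1

/-- the diagonal of `h_{ij}(a)` -/
def hc (i j : Fin n) (a : F) : Fin n → F := fun k => if k = i then a else if k = j then a⁻¹ else 1

/-- monomial elements: first properties -/
structure Weq (φ : E →* SLn n F) (X : Fin n → Fin n → F → E) : Prop where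
  wmono : ∀ i j a, i ≠ j → a ≠ 0 → Mono (φ (Wr X i j a)) (Equiv.swap i j) (wc i j a)
  hmono : ∀ i j a, i ≠ j → a ≠ 0 → Mono (φ (Hr X i j a)) 1 (hc i j a)
  weqv : ∀ (g : E) (σ : Equiv.Perm (Fin n)) (c : Fin n → F), Mono (φ g) σ c → ∀ i j a, i ≠ j → a ≠ 0 →
    g * Wr X i j a * g⁻¹ = Wr X (σ i) (σ j) (c i * (c j)⁻¹ * a)
  wsym : ∀ i j a, i ≠ j → a ≠ 0 → Wr X j i a = Wr X i j (-a⁻¹)
  winv : ∀ i j a, i ≠ j → a ≠ 0 → Wr X i j (-a) = (Wr X i j a)⁻¹

/-- the torus -/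
structure Tor (φ : E →* SLn n F) (X : Fin n → Fin n → F → E) : Prop where
  hmul : ∀ i j a b, i ≠ j → a ≠ 0 → b ≠ 0 → Hr X i j a * Hr X i j b = Hr X i j (a * b)
  hinv : ∀ i j a, i ≠ j → a ≠ 0 → Hr X j i a = (Hr X i j a)⁻¹
  heqv : ∀ (g : E) (σ : Equiv.Perm (Fin n)) (c : Fin n → F), Mono (φ g) σ c → ∀ i j a, i ≠ j → a ≠ 0 →
    g * Hr X i j a * g⁻¹ = Hr X (σ i) (σ j) a
  hcom : ∀ i j k l a b, i ≠ j → k ≠ l → a ≠ 0 → b ≠ 0 → Hr X i j a * Hr X k l b = Hr X k l b * Hr X i j a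
  htri : ∀ i j k a, i ≠ j → j ≠ k → i ≠ k → a ≠ 0 → Hr X j k a * Hr X i j a = Hr X i k a

/-- the subgroup generated by the positive roots -/
def Up (X : Fin n → Fin n → F → E) : Subgroup E := Subgroup.closure {x | ∃ i j a, i < j ∧ x = X i j a}

/-- the same without the simple root `(r, s)` -/
def Upx (X : Fin n → Fin n → F → E) (r s : Fin n) : Subgroup E :=
  Subgroup.closure {x | ∃ i j a, i < j ∧ ¬ (i = r ∧ j = s) ∧ x = X i j a}

/-- the torus, generated by the `h_{ij}(a)` -/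
def Th (X : Fin n → Fin n → F → E) : Subgroup E :=
  Subgroup.closure {x | ∃ i j a, i ≠ j ∧ a ≠ 0 ∧ x = Hr X i j a}

/-- the monomial group, generated by the `h_{ij}(a)` and the `w_{ij}(1)` -/
def Nh (X : Fin n → Fin n → F → E) : Subgroup E :=
  Subgroup.closure {x | ∃ i j, i ≠ j ∧ ((∃ a, a ≠ 0 ∧ x = Hr X i j a) ∨ x = Wr X i j 1)}

end

/-- PMON (monomial matrices; `N i j a` stands for `tv i j a * tv j i (-a⁻¹) * tv i j a`).
PROOF.  (1) entry `(i, j)` of the product: `∑ k, g i k h k j`, only `k = τ j` counts.  (2) `g⁻¹`: from (1) the matrix with `σ⁻¹` and `d j = (c (σ⁻¹ j))⁻¹` is an inverse as a matrix (`g` times it is `1`); its determinant is then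
that of `g⁻¹`; or: `G` is finite-free here, so compute `g⁻¹.1 = adjugate`, easier: `g.1 * B = 1` gives `B = (g⁻¹).1` (`Matrix.SpecialLinearGroup`, multiply by `(g⁻¹).1`).  (3) `g * tv i j a = tv (σ i) (σ j) (c i (c j)⁻¹ a) * g`, entries; `tv i j a` has the matrix `1 + a E_{ij}`.
(4) column `j` has exactly one nonzero entry.  (5) clear.  (6) the diagonal matrix.  (7) `tv i j a * tv j i b * tv i j a` for `b = -a⁻¹`: entries (the matrix differs from `1` only in the rows and columns `i, j`).  (8) (7) for `a` and (2) for `a = 1`, then (1) and (4): or compute directly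
`N i j a = D * N i j 1` with `D` diagonal. -/
def StPMON : Prop := ∀ (n : ℕ) (F : Type) [Field F],
  (∀ (g h : SLn n F) σ τ c d, Mono g σ c → Mono h τ d → Mono (g * h) (σ * τ) (fun j => c (τ j) * d j)) ∧
  (∀ (g : SLn n F) σ c, Mono g σ c → Mono g⁻¹ σ⁻¹ (fun j => (c (σ⁻¹ j))⁻¹)) ∧
  (∀ (g : SLn n F) σ c, Mono g σ c → ∀ i j a, i ≠ j →
    g * tv i j a * g⁻¹ = tv (σ i) (σ j) (c i * (c j)⁻¹ * a)) ∧
  (∀ (g : SLn n F) σ τ c d, Mono g σ c → Mono g τ d → σ = τ ∧ c = d) ∧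
  (Mono (1 : SLn n F) 1 (fun _ => 1)) ∧
  (∀ c : Fin n → F, ∏ j, c j = 1 → ∃ g : SLn n F, Mono g 1 c) ∧
  (∀ (i j : Fin n) (a : F), i ≠ j → a ≠ 0 →
    Mono (tv i j a * tv j i (-a⁻¹) * tv i j a) (Equiv.swap i j) (wc i j a)) ∧
  (∀ (i j : Fin n) (a : F), i ≠ j → a ≠ 0 →
    Mono (tv i j a * tv j i (-a⁻¹) * tv i j a * (tv i j 1 * tv j i (-1) * tv i j 1)⁻¹) 1 (hc i j a))

/-- PTVR (relations between transvections).  PROOF.  Matrices: `tv i j a = 1 + a E_{ij}`, `E_{ij} E_{kl} = δ_{jk} E_{il}` (`Matrix.single`, `Matrix.transvection`, `Matrix.single_mul_single_of_ne`, ...).  The third claim: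
`tv i j a * tv j k b = tv i k (a b) * tv j k b * tv i j a`. -/
def StPTVR : Prop := ∀ (n : ℕ) (F : Type) [Field F],
  (∀ (i j : Fin n) (a b : F), i ≠ j → tv i j a * tv i j b = tv i j (a + b)) ∧
  (∀ (i j k l : Fin n) (a b : F), i ≠ j → k ≠ l → j ≠ k → i ≠ l → tv i j a * tv k l b = tv k l b * tv i j a) ∧
  (∀ (i j k : Fin n) (a b : F), i ≠ j → j ≠ k → i ≠ k →
    tv i j a * tv j k b * (tv i j a)⁻¹ * (tv j k b)⁻¹ = tv i k (a * b)) ∧
  (∀ (i j : Fin n) (a : F), i ≠ j → (tv i j a)⁻¹ = tv i j (-a)) ∧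
  (∀ (i j : Fin n) (a : F), i ≠ j → tv i j a = 1 → a = 0)

/-- PCAN (canonical lifts).  Uses `StPMON`, `StPTVR`, `StLIF`.
PROOF.  For `p ≠ q` let `sg p q` be the sign matrix: diagonal, `-1` at `p` and `q`, `1` otherwise (PMON (6)); `sg p q * sg p q = 1` (PMON (1), (4), (5): a matrix with `Mono g 1 (fun _ => 1)` is `1`, e.g. from its entries).  LIF (1): a lift `D p q` with `D * D = 1`.
(U1) If `φ y = φ y'`, `T y T⁻¹ = y⁻¹`, `T y' T⁻¹ = y'⁻¹` then `y = y'`: `y' = y ζ`, `ζ ∈ ker φ` central, `y⁻¹ ζ = T y' T⁻¹ = y⁻¹ ζ⁻¹`, `ζ ζ = 1`, `ζ = 1`.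
(U2) Let `T T = T' T' = 1`, `φ T`, `φ T'` commute, `T y T⁻¹ = y⁻¹` and `φ (T' y T'⁻¹) = φ y⁻¹`; then `T' y T'⁻¹ = y⁻¹`.  First `T T' = T' T`: `T T' T⁻¹ = z T'`, `z ∈ ker φ`, and squaring `1 = z z`, `z = 1`.  `T' y T'⁻¹ = y⁻¹ ζ`; conjugate by `T`: `T T' y T'⁻¹ T⁻¹ = y ζ`; on the other
hand it is `T' (T y T⁻¹) T'⁻¹ = T' y⁻¹ T'⁻¹ = (y⁻¹ ζ)⁻¹ = y ζ⁻¹`.  So `ζ ζ = 1`, `ζ = 1`.
DEFINITION.  For `i ≠ j` choose `m ≠ i, j` (`3 ≤ n`), `T = D i m`; `sg i m * tv i j a * (sg i m)⁻¹ = tv i j (-a) = (tv i j a)⁻¹` (PMON (3)); LIF (2): a lift `X i j a` of `tv i j a` with `T (X i j a) T⁻¹ = (X i j a)⁻¹`.  (`X i i a = 1`.)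
`neg`: `(X i j a)⁻¹` is a lift of `tv i j (-a)` and is inverted by `T`: (U1).  `eqv`: let `y = g X i j a g⁻¹`, `T' = g T g⁻¹`: `T' T' = 1`, `T' y T'⁻¹ = y⁻¹`, `φ T'` is diagonal (PMON (1), (2): `Mono (φ T') (σ * 1 * σ⁻¹) _`), `φ y = tv (σ i) (σ j) (c i (c j)⁻¹ a)` (PMON (3)).
Let `T''` be the `D (σ i) m'` which belongs to `X (σ i) (σ j)`.  `φ T''` and `φ T'` are diagonal, so they commute, and `φ (T'' y T''⁻¹) = (φ y)⁻¹`; (U2): `T'' y T''⁻¹ = y⁻¹`; (U1): `y = X (σ i) (σ j) (c i (c j)⁻¹ a)`. -/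
def StPCAN : Prop := ∀ (n : ℕ) (F : Type) [Field F] [Finite F] (E : Type) [Group E] [Finite E]
  (φ : E →* SLn n F), 3 ≤ n → CE φ → ∃ X : Fin n → Fin n → F → E, Can φ X

/-- PSTA (relations for roots with a common index).  Uses `StPMON`, `StPTVR`.
PROOF.  Let `p ≠ q`; `d p q ∈ E` with `Mono (φ (d p q)) 1 (fun k => if k = p ∨ k = q then -1 else 1)` (PMON (6), `φ` surjective).  By `eqv` and `neg`: if exactly one of `i`, `j` is in `{p, q}` then `d X i j a d⁻¹ = X i j (-a) = (X i j a)⁻¹` (INV); if both or none then `d X i j a d⁻¹ = X i j a` (FIX).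
(A) If `x = X i j a`, `y = X k l b` and `d` inverts `x` and fixes `y` (or inverts `y` and fixes `x`), and `φ x`, `φ y` commute, then `x y = y x`: `x y = c y x` with `c ∈ ker φ` central; conjugate by `d`: `x⁻¹ y = c y x⁻¹`, while `x y = c y x` gives `x⁻¹ y = c⁻¹ y x⁻¹`; so `c = c⁻¹`, `c = 1`.
(1) `(i,j)`, `(i,l)`, `j ≠ l`: `d = d i l` inverts `X i j a` and fixes `X i l b`.  (2) `(i,j)`, `(k,j)`: `d = d j k`: inverts `X i j a`, fixes `X k j b`.
(3) `Y = x y x⁻¹ y⁻¹`, `x = X i j a`, `y = X j k b`: `φ Y = tv i k (a b)`.  `d = d i j` fixes `x`, inverts `y`: `d Y d⁻¹ = x y⁻¹ x⁻¹ y = y⁻¹ (y x y⁻¹ x⁻¹) y = y⁻¹ Y⁻¹ y`.  `Y = X i k (a b) ζ` with `ζ ∈ ker φ`, and `X i k (a b)` commutes with `y` by (2), so `d Y d⁻¹ = Y⁻¹`.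
Also `d Y d⁻¹ = (d X i k (a b) d⁻¹) ζ = (X i k (a b))⁻¹ ζ` (INV) and `Y⁻¹ = (X i k (a b))⁻¹ ζ⁻¹`: `ζ ζ = 1`, `ζ = 1`.
(4) choose `k ≠ i, j`: `X i j a = X i k a * X k j 1 * (X i k a)⁻¹ * (X k j 1)⁻¹` by (3); `X i j b` commutes with `X i k a` (1) and with `X k j 1` (2), so with `X i j a`.  `Y = X i j a * X i j b = X i j (a+b) ζ`; with `d = d i k`: `d Y d⁻¹ = (X i j a)⁻¹ (X i j b)⁻¹ = Y⁻¹` as they commute, and
`d Y d⁻¹ = (X i j (a+b))⁻¹ ζ`, so `ζ ζ = 1`. -/
def StPSTA : Prop := ∀ (n : ℕ) (F : Type) [Field F] (E : Type) [Group E] [Finite E]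
  (φ : E →* SLn n F) (X : Fin n → Fin n → F → E), 3 ≤ n → Can φ X →
  (∀ i j l a b, i ≠ j → i ≠ l → j ≠ l → X i j a * X i l b = X i l b * X i j a) ∧
  (∀ i j k a b, i ≠ j → k ≠ j → i ≠ k → X i j a * X k j b = X k j b * X i j a) ∧
  (∀ i j k a b, i ≠ j → j ≠ k → i ≠ k →
    X i j a * X j k b * (X i j a)⁻¹ * (X j k b)⁻¹ = X i k (a * b)) ∧
  ∀ i j a b, i ≠ j → X i j a * X i j b = X i j (a + b)

/-- PSTD (disjoint roots).  Uses `StPMON`, `StPTVR`, `StPSTA`.
PROOF.  `i, j, k, l` distinct.  Let `x = X i j a`, `y = X k l b`, `x y = c(a,b) y x`, `c(a,b) ∈ ker φ` central (`φ x`, `φ y` commute).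
Case `5 ≤ n`: `m ≠ i, j, k, l`, `d ∈ E` over the sign matrix with `-1` at `i, m`: it inverts `x` and fixes `y` (as in the proof of PSTA): `c = c⁻¹`, `c = 1`.
General facts: `c(a + a', b) = c(a,b) c(a',b)`, `c(a, b + b') = c(a,b) c(a,b')` (PSTA (4)), `c(0,b) = c(a,0) = 1` (`X i j 0 = 1` from PSTA (4)).
(T) for `t ≠ 0`: `g ∈ E` with `Mono (φ g) 1 (fun m => if m = i then t else if m = j then t⁻¹ else 1)`: conjugation by `g` maps `x` to `X i j (t t a)` (`t * (t⁻¹)⁻¹ * a`) and fixes `y`, and fixes `c(a,b)`: `c(t t a, b) = c(a,b)`, so `c((t t - 1) a, b) = 1`.  If there is `t ≠ 0` with `t t ≠ 1` then every `a'` is of the form `(t t - 1) a`: done.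
(S) Otherwise `t t = 1` for all `t ≠ 0`, so `t = 1` or `t = -1`; for `a, b ≠ 0`: `b = a` or `b = -a`.  `c(a, -a) = c(a,a)⁻¹`.  Let `g ∈ E` be a lift of `N i k 1 * N j l 1` (`N i k 1 = tv i k 1 * tv k i (-1) * tv i k 1`), PMON (7), (1): `Mono (φ g) (swap i k * swap j l) c'` with `c' i = -1, c' k = 1, c' j = -1, c' l = 1`:
`g X i j a g⁻¹ = X k l a`, `g X k l a g⁻¹ = X i j a`.  So `c(a,a)` (conjugated by `g`): `X k l a * X i j a = c(a,a) X i j a * X k l a`, i.e. `c(a,a) = c(a,a)⁻¹`, `c(a,a) = 1`. -/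
def StPSTD : Prop := ∀ (n : ℕ) (F : Type) [Field F] (E : Type) [Group E] [Finite E]
  (φ : E →* SLn n F) (X : Fin n → Fin n → F → E), 3 ≤ n → Can φ X →
  ∀ i j k l a b, i ≠ j → k ≠ l → i ≠ k → i ≠ l → j ≠ k → j ≠ l →
    X i j a * X k l b = X k l b * X i j a

/-- PWEQ (the monomial elements).  Uses `StPMON`.
PROOF.  `wmono`, `hmono`: `φ (Wr X i j a) = tv i j a * tv j i (-a⁻¹) * tv i j a` (`map`), PMON (7), (8).  `weqv`: conjugate the three factors by `eqv`: with `λ = c i (c j)⁻¹`: `X (σ i) (σ j) (λ a) * X (σ j) (σ i) (c j (c i)⁻¹ (-a⁻¹)) * X (σ i) (σ j) (λ a)` and `c j (c i)⁻¹ (-a⁻¹) = -(λ a)⁻¹`.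
`wsym`: let `w = Wr X i j a`; `weqv`-style conjugation of the three factors of `w` by `w` itself (`eqv` with `wmono`): `X i j a ↦ X j i (-a⁻¹ a⁻¹ a) = X j i (-a⁻¹)`, `X j i (-a⁻¹) ↦ X i j (a (-a⁻¹)⁻¹ (-a⁻¹)) = X i j a`, so `w = X j i (-a⁻¹) * X i j a * X j i (-a⁻¹) = Wr X j i (-a⁻¹)` (`-(-a⁻¹)⁻¹ = a`).
Replace `(i, j, a)` by `(j, i, a)`: `Wr X j i a = Wr X i j (-a⁻¹)`.  `winv`: `(x y x)⁻¹ = x⁻¹ y⁻¹ x⁻¹` and `neg`. -/
def StPWEQ : Prop := ∀ (n : ℕ) (F : Type) [Field F] (E : Type) [Group E] [Finite E]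
  (φ : E →* SLn n F) (X : Fin n → Fin n → F → E), Can φ X → Weq φ X

/-- PTOR (the torus relations).  Uses `StPMON`.
PROOF.  `H i j a = Hr X i j a`, `H i j 1 = 1`.  (a) From `weqv`, for `Mono (φ g) σ c`, `λ = c i (c j)⁻¹`: `g H i j a g⁻¹ = Wr (σ i) (σ j) (λ a) * (Wr (σ i) (σ j) λ)⁻¹ = H (σ i) (σ j) (λ a) * (H (σ i) (σ j) λ)⁻¹`.
(b) Elements of `E` over diagonal matrices (`Mono (φ g) 1 c`) form a subgroup on which commutators `[g, h] = g h g⁻¹ h⁻¹` lie in `ker φ` (diagonal matrices commute), so they are central and bimultiplicative, and do not change if `g` or `h` is multiplied by an element of `ker φ`.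
(c) For distinct `i, j, k`, `a, b ≠ 0` let `s(a,b) = [H i j a, H i k b]`.  (a) with `g = H i j a` (`hmono`: `c i = a`, `c k = 1`): `s(a,b) = H i k (a b) * (H i k a)⁻¹ * (H i k b)⁻¹` (SYMBOL).  `H i j (a a')` and `H i j a * H i j a'` have the same image, so by (b) `s(a a', b) = s(a,b) s(a',b)`, and similarly in `b`.
Conjugate by `g = Wr X j k 1` (`σ = swap j k`, fixes `i`; `g H i j a g⁻¹ = H i k a ζ`, `g H i k b g⁻¹ = H i j b ζ'` with `ζ, ζ' ∈ ker φ`, as the images agree): `s(a,b) = [H i k a, H i j b] = [H i j b, H i k a]⁻¹ = s(b,a)⁻¹`.  So `s(a,a)² = 1`, `s(a,a) = 1`.  `Fˣ` is cyclic (`F` finite) with generator `u`: `s(u^p, u^q) = s(u,u)^(p q) = 1`.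
So `s = 1`: `H i j a` and `H i k b` commute, and `H i k (a b) = H i k b * H i k a`: `hmul` (choose `j ≠ i, k`, `3 ≤ n`; the factors commute, apply it twice).
`heqv`: (a) and `hmul` (`H (λ a) (H λ)⁻¹ = H a`).  `hinv`: `wsym`: `H j i a = Wr j i a * (Wr j i 1)⁻¹ = Wr i j (-a⁻¹) * (Wr i j (-1))⁻¹ = H i j (-a⁻¹) * (H i j (-1))⁻¹`, and by `hmul` this is `H i j (a⁻¹) = (H i j a)⁻¹` (`H i j 1 = 1`).
`hcom`: `heqv` for `g = H i j a`, `σ = 1`.  `htri`: `ζ = H j k a * H i j a * (H i k a)⁻¹ ∈ ker φ` (compare images: `hc`).  Conjugate by `Wr X j k 1` (`heqv`): `ζ = H k j a * H i k a * (H i j a)⁻¹ = (H j k a)⁻¹ * H i k a * (H i j a)⁻¹`; as all commute the product of the two expressions is `1`: `ζ ζ = 1`, `ζ = 1`. -/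
def StPTOR : Prop := ∀ (n : ℕ) (F : Type) [Field F] [Finite F] (E : Type) [Group E] [Finite E]
  (φ : E →* SLn n F) (X : Fin n → Fin n → F → E), 3 ≤ n → Can φ X → Weq φ X → Tor φ X

/-- PTHK (the torus meets the kernel trivially).  Uses `StPMON`.
PROOF.  `o : Fin n` the first index.  By `htri` (with `i = o`) `H j k a = H o k a * (H o j a)⁻¹` for `j, k ≠ o` distinct, and `H j o a = (H o j a)⁻¹` (`hinv`): `Th X` is the closure of the `H o j a`, `j ≠ o`, `a ≠ 0`.  For a finite set `A` of indices `≠ o` let `T_A` be the closure of the `H o j a` with `j ∈ A`.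
CLAIM (induction on `A`): `x ∈ T_A`, `φ x = 1` imply `x = 1`; and every `x ∈ T_A` has `Mono (φ x) 1 c` with `c j = 1` for `j ∉ A`, `j ≠ o`.  Step `A ∪ {k}`: every element is `H o k a * y` with `y ∈ T_A` (all commute, `hmul`); `φ x = 1`, entry `(k,k)`: `a⁻¹ * 1 = 1`, `a = 1`, `H o k 1 = 1`, `x = y`. -/
def StPTHK : Prop := ∀ (n : ℕ) (F : Type) [Field F] (E : Type) [Group E] [Finite E]
  (φ : E →* SLn n F) (X : Fin n → Fin n → F → E), 3 ≤ n → Can φ X → Weq φ X → Tor φ X →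
  ∀ x ∈ Th X, φ x = 1 → x = 1

/-- PMOO (the symmetric group is presented by the transpositions).
PROOF.  (B) For every group `K` and `s` with the four properties the closure of the `s i j` is finite of order at most `n!`.  Induction on `n`; `n = 0`: the closure of the empty set.  `n + 1`: `s' i j = s i.succ j.succ` has the properties for `n` (`swap i.succ j.succ k.succ = (swap i j k).succ`), `K'` = its closure.
The set `R = ⋃_{j : Fin (n+1)} s 0 j * K'` contains `1` and is closed under left multiplication by all `s k l`: `k = l` trivial; `k, l ≠ 0`: `s k l * s 0 j = s 0 (swap k l j) * s k l` (as `s k l * s 0 j * s k l = s 0 (swap k l j)`), `s k l ∈ K'`; by symmetry of `s` the remaining case is `k = 0`, `l ≠ 0`: `j = 0`: `s 0 0 = 1`,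
`s 0 l * K'`; `j = l`: `s 0 l * s 0 l = 1 = s 0 0`; `j ≠ 0, l`: `s 0 l * s 0 j = s 0 j * (s 0 j * s 0 l * s 0 j) = s 0 j * s j l`, `s j l ∈ K'` (`swap 0 j 0 = j`, `swap 0 j l = l`).  So the closure is contained in `R` (the inverses of the generators are generators), of order at most `(n+1) n!`.
(C) Apply (B) to `K × Equiv.Perm (Fin n)` and the pairs `(s i j, swap i j)`: closure `Γ`.  The projection `Γ → Equiv.Perm (Fin n)` is surjective (swaps generate: `Equiv.Perm.closure_isSwap`), `|Equiv.Perm (Fin n)| = n!`, so it is bijective; `Θ` = inverse followed by the other projection. -/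
def StPMOO : Prop := ∀ (n : ℕ) (K : Type) [Group K] (s : Fin n → Fin n → K), (∀ i, s i i = 1) →
  (∀ i j, s i j = s j i) → (∀ i j, s i j * s i j = 1) →
  (∀ i j k l, s i j * s k l * s i j = s (Equiv.swap i j k) (Equiv.swap i j l)) →
  ∃ Θ : Equiv.Perm (Fin n) →* K, ∀ i j, Θ (Equiv.swap i j) = s i j

/-- PNHK (the monomial group meets the kernel trivially).  Uses `StPMON`, `StPTHK`, `StPMOO`.
PROOF.  `M` = the subgroup of the `g ∈ E` with `∃ σ c, Mono (φ g) σ c` (PMON (1), (2), (5)); it contains `Nh X` (`wmono`, `hmono`): second claim.  `Th X` is normalised by `M` (`heqv`); let `K = M ⧸ (Th X).subgroupOf M`.  `s i j` = the class of `Wr X i j 1` for `i ≠ j`, `s i i = 1`.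
Properties for PMOO: `Wr X i j 1 * Wr X i j 1 = (Hr X i j (-1))⁻¹` (`winv`: `Wr X i j (-1) = (Wr X i j 1)⁻¹`), in `Th X`: squares; `Wr X j i 1 = Wr X i j (-1) = (Wr X i j 1)⁻¹` (`wsym`): symmetry; `weqv`: `Wr X i j 1 * Wr X k l 1 * (Wr X i j 1)⁻¹ = Wr X (σ k) (σ l) λ = Hr X (σ k) (σ l) λ * Wr X (σ k) (σ l) 1`, `σ = swap i j`,
`λ ≠ 0`: the fourth property (`s i j` is its own inverse).  `Θ` from PMOO.  By `Subgroup.closure_induction` every `x ∈ Nh X` with `Mono (φ x) σ c` has the class `Θ σ` (generators; products and inverses with PMON (1), (2), (4)).  If `φ x = 1` then `σ = 1` (PMON (4), (5)), the class is `1`, `x ∈ Th X`, and PTHK. -/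
def StPNHK : Prop := ∀ (n : ℕ) (F : Type) [Field F] (E : Type) [Group E] [Finite E]
  (φ : E →* SLn n F) (X : Fin n → Fin n → F → E), 3 ≤ n → Can φ X → Weq φ X → Tor φ X →
  (∀ x ∈ Nh X, φ x = 1 → x = 1) ∧ ∀ x ∈ Nh X, ∃ σ c, Mono (φ x) σ c

/-- PUTR (upper unitriangular matrices).
PROOF.  `P g : (∀ i, g.1 i i = 1) ∧ ∀ i j, j < i → g.1 i j = 0` holds for `tv i j a`, `i < j`, and is closed under products; the inverse: `(tv i j a)⁻¹ = tv i j (-a)` is again a generator, so `Subgroup.closure_induction''` or `Subgroup.closure_toSubmonoid`.  (2) `σ i = i` for all `i` since the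
diagonal entries are not zero, so `g` is diagonal with diagonal `1`. -/
def StPUTR : Prop := ∀ (n : ℕ) (F : Type) [Field F],
  (∀ g ∈ Subgroup.closure {x : SLn n F | ∃ i j a, i < j ∧ x = tv i j a},
    (∀ i, g.1 i i = 1) ∧ ∀ i j, j < i → g.1 i j = 0) ∧
  ∀ (g : SLn n F) σ c, Mono g σ c → (∀ i, g.1 i i = 1) → g = 1

/-- PUHK (the positive root group meets the kernel trivially).  Uses `StPTVR`.
PROOF.  For `m : Fin n` and a set `A` of indices `> m` let `R_{m,A}` be the closure of the `X m l a`, `l ∈ A`, and `U_m` the closure of the `X k l a` with `m ≤ k < l`.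
(R) `x ∈ R_{m,A}`, `φ x = 1` imply `x = 1`.  Induction on `A` (`Finset.induction_on`): every element of `R_{m, A ∪ {l}}` is `X m l a * y`, `y ∈ R_{m,A}` (`com`, `add`); for `g ∈ φ (R_{m,A})` the entries `(m, l')` with `l' ∉ A`, `l' ≠ m` are `0`, `g_{mm} = 1`, and the rows `k ≠ m` are those of `1` (closure induction); entry `(m, l)` of `φ (X m l a * y)`
is `a` (row `m` of `tv m l a` is `e_m + a e_l`, row `l` of `φ y` is `e_l`), so `a = 0`, `X m l 0 = 1`.
(U) `x ∈ U_m`, `φ x = 1` imply `x = 1`, by downward induction on `m` (`U_{n-1}` is trivial).  Every `x ∈ U_m` is `r u` with `r ∈ R_{m, {l > m}}`, `u ∈ U_{m+1}`: the set of these products contains `1` and is closed under left multiplication by `X m l a` and by `X k l a`, `m < k < l` (which normalises `R_m`: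
`X k l a * X m l' b * (X k l a)⁻¹` is `X m l' b` if `l' ≠ k`, and `X m k b * (...)`: by `cmm` `X m k b * X k l a * (X m k b)⁻¹ * (X k l a)⁻¹ = X m l (b a)`, so `X k l a * X m k b * (X k l a)⁻¹ ∈ R_m`).  Let `φ (r u) = 1`: row `m` of `φ u` is `e_m` (closure induction: row `m` of `tv k l a`, `k ≠ m`, is `e_m`), so row `m` of
`φ r = (φ u)⁻¹` is `e_m`, and the other rows of `φ r` are those of `1`: `φ r = 1`, `r = 1` by (R), `φ u = 1`, `u = 1`. -/
def StPUHK : Prop := ∀ (n : ℕ) (F : Type) [Field F] (E : Type) [Group E] [Finite E]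
  (φ : E →* SLn n F) (X : Fin n → Fin n → F → E), 3 ≤ n → Stb φ X → ∀ x ∈ Up X, φ x = 1 → x = 1

/-- PUDC (splitting off a simple root).
PROOF.  `r`, `s` neighbours (`s = r + 1`).  `V = Upx X r s`.  (N) `X r s (-b) * y * X r s b ∈ V` for `y ∈ V`: for a generator `y = X k l a`, `k < l`, `(k,l) ≠ (r,s)`: if `l ≠ r` and `k ≠ s` it commutes with `X r s b` (`com`, or `add` is not needed as `(k,l) ≠ (r,s)`; note `com` needs `j ≠ k, i ≠ l` only); if `l = r`: `cmm`:
`X k r a * X r s b * (X k r a)⁻¹ * (X r s b)⁻¹ = X k s (a b)`, so the conjugate is `X k r a` times an element `X k s (..)` of `V` (`k < r < s`, `k ≠ r`); `k = s`: similarly `X r l (..)`, `l > s`, `(r,l) ≠ (r,s)`.  (`cmm` also gives `[X r s b, X s l a] = X r l (b a)`.)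
(D) the set of the products `X r s b * y`, `y ∈ V`, contains `1` (`X r s 0 = 1`) and is closed under left multiplication by the generators of `Up X` (by (N) and `add`), which are closed under inversion (`neg`). -/
def StPUDC : Prop := ∀ (n : ℕ) (F : Type) [Field F] (E : Type) [Group E] [Finite E]
  (φ : E →* SLn n F) (X : Fin n → Fin n → F → E), Stb φ X → ∀ r s : Fin n, (s : ℕ) = r + 1 →
  ∀ v ∈ Up X, ∃ (b : F), ∃ y ∈ Upx X r s, v = X r s b * y

/-- PBRU (Bruhat cells).  Uses `StPMON`, `StPUDC`, `StPNHK`.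
PROOF.  `C` = the set of the products `u n v`, `u, v ∈ Up X`, `n ∈ Nh X`.  It contains `1` and is closed under right multiplication by `Up X`.  (T) by `Hr X i j a`: it normalises `Up X` (`eqv` with `σ = 1`): `u n v h = u (n h) (h⁻¹ v h)`.
(W) by `w = Wr X r s 1`, `s = r + 1`: `v = X r s b * y`, `y ∈ Upx X r s` (PUDC) and `w⁻¹ y w ∈ Up X` (`eqv` for `g = w⁻¹`, `σ = swap r s`: `k < l`, `(k,l) ≠ (r,s)` imply `σ k < σ l`).  So `u n v w = u (n * X r s b * w) (w⁻¹ y w)`, and it is enough that `n * X r s b * w ∈ C`.  Let `Mono (φ n) σ c` (PNHK).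
If `σ r < σ s`: `n * X r s b * w = (n X r s b n⁻¹) (n w)`, `n X r s b n⁻¹ = X (σ r) (σ s) _ ∈ Up X`.  If `σ s < σ r`: `n' = n w` has `Mono (φ n') (σ * swap r s) _`, which maps `r` to `σ s` and `s` to `σ r`; `n X r s b w = n' (w⁻¹ X r s b w)`, `w⁻¹ X r s b w = X s r b'` (`eqv`, `σ = swap r s`).  `b' = 0`: `X s r 0 = 1` (`add`).  `b' ≠ 0`: with
`a = -b'⁻¹`: `Wr X r s a = X r s a * X s r (-a⁻¹) * X r s a` and `-a⁻¹ = b'`, so `X s r b' = X r s (-a) * Wr X r s a * X r s (-a)`; `n' X r s (-a) n'⁻¹ = X (σ s) (σ r) _ ∈ Up X`, `n' * Wr X r s a ∈ Nh X` (`Wr X r s a = Hr X r s a * Wr X r s 1`).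
All elements of the closure: right multiplication by the generators and their inverses (`(Wr X r s 1)⁻¹ = Wr X r s 1 * (Wr X r s 1)⁻²`, `(Wr X r s 1)² = (Hr X r s (-1))⁻¹` (`winv`), `hinv`/`hmul` for the inverse of `Hr`; or use that `E` is finite, so the closure as a subgroup is the closure as a submonoid: `Subgroup.closure_toSubmonoid_of_finite`). -/
def StPBRU : Prop := ∀ (n : ℕ) (F : Type) [Field F] (E : Type) [Group E] [Finite E]
  (φ : E →* SLn n F) (X : Fin n → Fin n → F → E), 3 ≤ n → Stb φ X → Weq φ X → Tor φ X →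
  ∀ x ∈ Subgroup.closure ({x | ∃ i j a, i < j ∧ x = X i j a} ∪ {x | ∃ i j a, i ≠ j ∧ a ≠ 0 ∧ x = Hr X i j a} ∪
    {x | ∃ r s : Fin n, (s : ℕ) = r + 1 ∧ x = Wr X r s 1}),
  ∃ u ∈ Up X, ∃ m ∈ Nh X, ∃ v ∈ Up X, x = u * m * v

/-- PGEN (generation of `SL_n(F)`).  Uses `StPMON`, `StPTVR`.
PROOF.  `K` contains the `tv i j a`, `i < j`, and the `w_r = tv r s 1 * tv s r (-1) * tv r s 1`, `s = r + 1`.  (1) `w_r * tv r s a * w_r⁻¹ = tv s r (-a)` (PMON (7), (3)): `K` contains `tv s r a`.  (2) `tv j i a ∈ K` for `i < j`, by induction on `j - i`: `tv j i a = [tv j k a, tv k i 1]` with `k = j - 1` (PTVR (3)) if `j - i ≥ 2`.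
So `K` contains all transvections.  (3) Diagonal matrices of determinant `1` (`Mono g 1 c`, `∏ c = 1`) are in `K`: `h i j a = N i j a * (N i j 1)⁻¹ ∈ K` with diagonal `hc i j a` (PMON (8)); by induction on the number of `j ≠ o` with `c j ≠ 1` (`o` the first index): multiply by `h o j (c j)`, which has `a = c j` at `o` and `(c j)⁻¹` at `j`; at the end
`c j = 1` for all `j ≠ o`, so `c o = 1`.  (4) `Matrix.Pivot.exists_list_transvec_mul_diagonal_mul_list_transvec` (`n` with `Fin n`): `g.1 = L.prod * diagonal D * L'.prod`; the transvections have determinant one, so `∏ D = 1`; lift all factors to `SL_n` (`Subtype.ext`). -/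
def StPGEN : Prop := ∀ (n : ℕ) (F : Type) [Field F], 2 ≤ n → ∀ K : Subgroup (SLn n F),
  (∀ (i j : Fin n) (a : F), i < j → tv i j a ∈ K) →
  (∀ r s : Fin n, (s : ℕ) = r + 1 → tv r s 1 * tv s r (-1) * tv r s 1 ∈ K) → K = ⊤

/-- PSPL (the extension splits).  Uses all the statements above.
PROOF.  `X` from PCAN, `Stb φ X` from PSTA, PSTD (`com`: the cases `(k,l) = (i,j)` (from `add`, `add_comm`), `k = i`, `l = j`, all distinct), `Weq`, `Tor` from PWEQ, PTOR.  Let `S` be the closure in PBRU.  `φ` is injective on `S`: `x = u m v`, `φ x = 1`: `φ m = (φ u)⁻¹ (φ v)⁻¹` is in the closure of the `tv i j a`, `i < j` (`φ (Up X)`), so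
upper unitriangular (PUTR (1)), and `Mono (φ m) σ c` (PNHK): `φ m = 1` (PUTR (2)), `m = 1` (PNHK), `x = u v ∈ Up X`, `x = 1` (PUHK).  `S.map φ = ⊤` (PGEN).  So `φ` restricted to `S` is an isomorphism (`MulEquiv.ofBijective`), `s` = its inverse followed by the inclusion. -/
def StPSPL : Prop := ∀ (n : ℕ) (F : Type) [Field F] [Finite F] (E : Type) [Group E] [Finite E]
  (φ : E →* SLn n F), 3 ≤ n → CE φ → ∃ s : SLn n F →* E, ∀ g, φ (s g) = g

/-- PPBK (covers of `PSL_n(F)`).  Uses `StPSPL`.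
PROOF.  `π : SL_n(F) → PSL_n(F)` the quotient map, `ψ : Q → Q ⧸ Z(Q) ≃* PSL_n(F)`, kernel `Z(Q)` of odd order.  `E = {(x, g) ∈ Q × SL_n(F) | ψ x = π g}` (a subgroup), `φ (x, g) = g`: surjective (`ψ` is), the kernel consists of the `(z, 1)`, `z ∈ Z(Q)`: central of odd order.  PSPL: `s`.  `f g = (s g).1 : Q`, a homomorphism with `ψ (f g) = π g`.
`f` is surjective: `range f * Z(Q) = Q` (`ψ` of the range is everything), so all commutators of `Q` are commutators of elements of `range f` and `Q = commutator Q ≤ range f`.  `N = ker f ≤ ker π = center`.  `Q ≃* SL_n(F) ⧸ N` (`QuotientGroup.quotientKerEquivOfSurjective`). -/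
def StPPBK : Prop := ∀ (n : ℕ) (F : Type) [Field F] [Finite F] (Q : Type) [Group Q] [Finite Q], 3 ≤ n →
  commutator Q = ⊤ → Odd (Nat.card (Subgroup.center Q)) →
  Nonempty ((Q ⧸ Subgroup.center Q) ≃* (SLn n F ⧸ Subgroup.center (SLn n F))) →
  ∃ (N : Subgroup (SLn n F)) (_ : N.Normal), N ≤ Subgroup.center (SLn n F) ∧
    Nonempty (Q ≃* (SLn n F ⧸ N))

end Pool.Agent.Helper70.ML
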