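import Pool.Agent.Helper70.ML.GenMain
import Pool.Agent.Helper70.ML.St3
import Pool.Agent.Helper84.MXP.Core4

/-!
# Project ML (MP_a2f62e_al): groups with alternating or projective special linear composition factors
-/

set_option autoImplicit false

namespace Pool.Agent.Helper70.ML

open Pool.Agent.Helper75.MX

/-- alternating of degree at least five, or `PSL_n(F)`, `n ≥ 2`, `F` a finite field -/
def AltPSL (S : Type) [Group S] : Prop :=
  (∃ n : ℕ, 5 ≤ n ∧ Nonempty (S ≃* alternatingGroup (Fin n))) ∨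
  ∃ (n : ℕ) (F : Type) (_ : Field F) (_ : Finite F), 2 ≤ n ∧
    Nonempty (S ≃* (Matrix.SpecialLinearGroup (Fin n) F ⧸
      Subgroup.center (Matrix.SpecialLinearGroup (Fin n) F)))

theorem altPSL_iso (S S' : Type) [Group S] [Group S'] (e : Nonempty (S ≃* S')) (h : AltPSL S) :
    AltPSL S' := by
  obtain ⟨e⟩ := e
  rcases h with ⟨n, hn, ⟨f⟩⟩ | ⟨n, F, hF, hF', hn, ⟨f⟩⟩
  · exact Or.inl ⟨n, hn, ⟨e.symm.trans f⟩⟩
  · exact Or.inr ⟨n, F, hF, hF', hn, ⟨e.symm.trans f⟩⟩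

theorem good_of_mixlen {C : ℝ} {G : Type} [Group G] (h : Mixable G)
    (hm : (mixlen G : ℝ) ≤ C * Real.logb 2 (Nat.card G)) : Good C G := by
  obtain ⟨k, hk⟩ := h
  have h4 : IsMixing G (mixlen G) := Nat.sInf_mem (s := {k | IsMixing G k}) ⟨k, hk⟩
  obtain ⟨l, hl, ho, he⟩ := isMixing_iff.1 h4
  exact ⟨mixlen G, ⟨l, hl.le, ho, he⟩, hm⟩

/-- covers of `PSL_n(F)`, `n ≥ 3`, with centre of odd order -/
theorem good_psl3 (hPPBK : StPPBK) (n : ℕ) (F : Type) [Field F] [Finite F] (hn : 3 ≤ n)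
    (Q : Type) [Group Q] [Finite Q] (hQ : QO Q)
    (e : Nonempty ((Q ⧸ Subgroup.center Q) ≃* (Matrix.SpecialLinearGroup (Fin n) F ⧸
      Subgroup.center (Matrix.SpecialLinearGroup (Fin n) F)))) : Good 6 Q := by
  obtain ⟨N, hN, hNc, ⟨f⟩⟩ := hPPBK n F Q hn hQ.1 hQ.2.2 e
  obtain ⟨h1, h2⟩ := Pool.Agent.Helper84.MXP.slAll n F (by omega) (by omega) N hNc
  exact (pISO _ Q ⟨f.symm⟩).2.1 6 (good_of_mixlen h1 h2)

/-- covers of `PSL_2(F)` (part 2, helper84) -/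
def StPSL2 : Prop := ∀ (F : Type) [Field F] [Finite F] (Q : Type) [Group Q] [Finite Q], QO Q →
  Nonempty ((Q ⧸ Subgroup.center Q) ≃* (Matrix.SpecialLinearGroup (Fin 2) F ⧸
      Subgroup.center (Matrix.SpecialLinearGroup (Fin 2) F))) → StepP Q ∨ Good 6 Q

/-- finite groups without nontrivial quotient of odd order all of whose nonabelian composition factors are
alternating groups or groups `PSL_n(F)` -/
theorem final_altPSL (hPPBK : StPPBK) (hPSL2 : StPSL2) (G : Type) [Group G] [Finite G]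
    (h : ∀ H : Subgroup G, H.IsSubnormal → ∀ (N : Subgroup H) [N.Normal],
      IsSimpleGroup (H ⧸ N) → (¬ ∀ a b : H ⧸ N, a * b = b * a) → AltPSL (H ⧸ N))
    (hG : ∀ N : Subgroup G, N.Normal → Odd N.index → N = ⊤) :
    Mixable G ∧ (mixlen G : ℝ) ≤ 6 * Real.logb 2 (Nat.card G) := by
  refine finG 6 le_rfl G (hypG_of_simple 6 (fun S => AltPSL S) ?_ altPSL_iso G h) hG
  intro Q _ _ hQ hP
  rcases hP with ⟨n, hn, hf⟩ | ⟨n, F, hF, hF', hn, hf⟩
  · exact pALT Q hQ ⟨n, hn, hf⟩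
  · rcases Nat.lt_or_ge n 3 with h3 | h3
    · obtain rfl : n = 2 := by omega
      exact hPSL2 F Q hQ hf
    · exact Or.inr (good_psl3 hPPBK n F h3 Q hQ hf)

end Pool.Agent.Helper70.ML
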