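import Pool.Agent.Helper70.ML.All

/-!
# Project ML (MP_a2f62e_al): general reduction to quasisimple sections with centre of odd order
-/

set_option autoImplicit false

namespace Pool.Agent.Helper70.ML

open Pool.Agent.Helper75.MX Pool.Agent.Helper75.ML Pool.Agent.Helper82.ML
open scoped commutatorElement

/-- the hypothesis on the quasisimple sections: there is a cheap step, or the group itself is mixed cheaply -/
def HypG (C : ℝ) (G : Type) [Group G] : Prop :=
  ∀ H : Subgroup G, H.IsSubnormal → ∀ (N : Subgroup H) [N.Normal],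
    QO (H ⧸ N) → StepP (H ⧸ N) ∨ Good C (H ⧸ N)

theorem stepP_iso {G G' : Type} [Group G] [Group G'] (e : G ≃* G') (h : StepP G) : StepP G' := by
  obtain ⟨M, hMn, hMne, m, hm, hF⟩ := h
  have hcard : Nat.card (M.map (e : G →* G')) = Nat.card M :=
    Nat.card_congr (M.equivMapOfInjective (e : G →* G') e.injective).symm.toEquiv
  refine ⟨M.map (e : G →* G'), hMn.map (e : G →* G') e.surjective, ?_, m, by rw [hcard]; exact hm, ?_⟩
  · intro h
    apply hMne
    exact (Subgroup.map_eq_bot_iff_of_injective M (f := (e : G →* G')) e.injective).1 h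
  · intro F
    obtain ⟨F1, ⟨l, hl, ho, he⟩, hs⟩ := hF (F ∘ (e : G →* G'))
    refine ⟨app (l.map (fun a => ((e : G →* G') a.1, a.2))) F, ⟨_, by simpa using hl, ?_, rfl⟩, ?_⟩
    · intro a ha
      obtain ⟨b, hb, rfl⟩ := List.mem_map.1 ha
      exact ho b hb
    · have h1 : F1 = (app (l.map (fun a => ((e : G →* G') a.1, a.2))) F) ∘ (e : G →* G') := by
        rw [← he, app_comp]
      intro y hy
      obtain ⟨x, hx, rfl⟩ := Subgroup.mem_map.1 hy
      have h2 := mem_stab.1 (hs hx)
      rw [mem_stab]
      funext z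
      obtain ⟨w, rfl⟩ := e.surjective z
      have h3 := congrFun h2 w
      rw [h1] at h3
      simpa [L] using h3

theorem transferG {C : ℝ} {A B : Type} [Group A] [Group B] (e : A ≃* B)
    (h : QO B → StepP B ∨ Good C B) : QO A → StepP A ∨ Good C A := by
  intro h1
  have h3 := pISO A B ⟨e⟩
  have h4 := pISO B A ⟨e.symm⟩
  rcases h (h3.2.2.1 h1) with h5 | h5
  · exact Or.inl (stepP_iso e.symm h5)
  · exact Or.inr (h4.2.1 C h5)

theorem hypG_inh (C : ℝ) (G : Type) [Group G] (hG : HypG C G) :
    (∀ K : Subgroup G, K.Normal → HypG C K) ∧ (∀ (M : Subgroup G) [M.Normal], HypG C (G ⧸ M)) ∧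
    (QO G → StepP G ∨ Good C G) := by
  refine ⟨?_, ?_, ?_⟩
  · intro K hK H hH N hN
    have hsub : (H.map K.subtype).IsSubnormal := hH.trans' hK.isSubnormal
    have e : H ≃* H.map K.subtype := H.equivMapOfInjective K.subtype K.subtype_injective
    have hN' : (N.map (e : H →* H.map K.subtype)).Normal :=
      hN.map (e : H →* H.map K.subtype) e.surjective
    exact transferG (QuotientGroup.congr N (N.map (e : H →* H.map K.subtype)) e rfl)
      (hG (H.map K.subtype) hsub (N.map (e : H →* H.map K.subtype)))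
  · intro M hM H hH N hN
    have hsub : (H.comap (QuotientGroup.mk' M)).IsSubnormal := hH.comap _
    set f : H.comap (QuotientGroup.mk' M) →* H ⧸ N :=
      (QuotientGroup.mk' N).comp ((QuotientGroup.mk' M).subgroupComap H) with hf
    have hs : Function.Surjective f := by
      rw [hf, MonoidHom.coe_comp]
      exact (QuotientGroup.mk'_surjective N).comp
        (MonoidHom.subgroupComap_surjective_of_surjective _ _ (QuotientGroup.mk'_surjective M))
    exact transferG (QuotientGroup.quotientKerEquivOfSurjective f hs).symm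
      (hG (H.comap (QuotientGroup.mk' M)) hsub f.ker)
  · have e : (⊤ : Subgroup G) ⧸ (⊥ : Subgroup (⊤ : Subgroup G)) ≃* G :=
      QuotientGroup.quotientBot.trans Subgroup.topEquiv
    exact transferG e.symm (hG ⊤ Subgroup.IsSubnormal.top ⊥)

/-- a nonabelian simple group is quasisimple with trivial centre -/
theorem qo_of_simple (Q : Type) [Group Q] (hs : IsSimpleGroup Q)
    (hne : ¬ ∀ a b : Q, a * b = b * a) : QO Q ∧ Subgroup.center Q = ⊥ := by
  have hcen : Subgroup.center Q = ⊥ := by
    rcases (inferInstance : (Subgroup.center Q).Normal).eq_bot_or_eq_top with h | h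
    · exact h
    · exfalso
      apply hne
      intro a b
      have ha : a ∈ Subgroup.center Q := by rw [h]; trivial
      exact (Subgroup.mem_center_iff.1 ha b).symm
  have hder : commutator Q = ⊤ := by
    rcases (inferInstance : (commutator Q).Normal).eq_bot_or_eq_top with h | h
    · exfalso
      rw [commutator_eq_bot_iff_center_eq_top] at h
      rw [hcen] at h
      exact (bot_ne_top : (⊥ : Subgroup Q) ≠ ⊤) h
    · exact h
  have e : (Q ⧸ Subgroup.center Q) ≃* Q :=
    (QuotientGroup.quotientMulEquivOfEq hcen).trans QuotientGroup.quotientBot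
  refine ⟨⟨hder, e.isSimpleGroup, ?_⟩, hcen⟩
  rw [hcen, Subgroup.card_bot]
  exact odd_one

/-- a cheap step in a simple group mixes it -/
theorem mix_of_stepP_simple (Q : Type) [Group Q] [Finite Q] (hs : IsSimpleGroup Q) (h : StepP Q) :
    ∃ k, Mix Q k := by
  obtain ⟨M, hMn, hMne, m, -, hF⟩ := h
  have hMt : M = ⊤ := by
    rcases hMn.eq_bot_or_eq_top with h | h
    · exact absurd h hMne
    · exact h
  subst hMt
  have hsub : Subsingleton (Q ⧸ (⊤ : Subgroup Q)) := QuotientGroup.subsingleton_quotient_top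
  have h0 : Mix (Q ⧸ (⊤ : Subgroup Q)) 0 := by
    have : dlt (Q ⧸ (⊤ : Subgroup Q)) = uni (Q ⧸ (⊤ : Subgroup Q)) := by
      funext x
      simp [dlt, uni, Subsingleton.elim x 1]
    unfold Mix
    rw [this]
    exact Reach.refl _
  obtain ⟨F, -, hF2⟩ := mix_stage (⊤ : Subgroup Q) h0
  obtain ⟨F', hr, hst⟩ := hF F
  exact ⟨_, hF2 _ F' hr hst⟩

/-- a nonabelian simple group of odd order cannot satisfy the hypothesis -/
theorem simple_oddG (C : ℝ) (Q : Type) [Group Q] [Finite Q] (hs : IsSimpleGroup Q)
    (hC : HypG C Q) (hodd : Odd (Nat.card Q)) : Group.IsSolvable Q := by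
  by_cases hcomm : ∀ a b : Q, a * b = b * a
  · exact Group.isSolvable_of_comm hcomm
  · exfalso
    obtain ⟨k, hk⟩ : ∃ k, Mix Q k := by
      rcases (hypG_inh C Q hC).2.2 (qo_of_simple Q hs hcomm).1 with h | h
      · exact mix_of_stepP_simple Q hs h
      · obtain ⟨k, hk, -⟩ := h
        exact ⟨k, hk⟩
    obtain ⟨m, -, hm⟩ := exists_isMixing hk
    have hTS := ts_of_mixable ⟨m, hm⟩
    have hbt : (⊥ : Subgroup Q) = ⊤ := by
      apply hTS ⊥ inferInstance
      rw [Subgroup.index_bot]
      exact hodd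
    exact (bot_ne_top : (⊥ : Subgroup Q) ≠ ⊤) hbt

theorem solG (C : ℝ) : ∀ n : ℕ, ∀ (G : Type) [Group G] [Finite G],
    Nat.card G = n → HypG C G → Odd (Nat.card G) → Group.IsSolvable G := by
  intro n
  induction n using Nat.strong_induction_on with
  | _ n ih =>
    intro G _ _ hn hC hodd
    rcases subsingleton_or_nontrivial G with hsub | hnt
    · exact Group.isSolvable_of_comm (fun a b => Subsingleton.elim _ _)
    · classical
      have hfin : Set.Finite {N : Subgroup G | N.Normal ∧ N ≠ ⊤} := Set.toFinite _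
      have hne : {N : Subgroup G | N.Normal ∧ N ≠ ⊤}.Nonempty :=
        ⟨⊥, inferInstance, bot_ne_top⟩
      obtain ⟨N, hN⟩ := hfin.exists_maximal hne
      have hNn : N.Normal := hN.prop.1
      have hNt : N ≠ ⊤ := hN.prop.2
      have hmax : ∀ M : Subgroup G, M.Normal → N ≤ M → M ≠ ⊤ → M = N := by
        intro M hM hle hMt
        exact le_antisymm (hN.2 ⟨hM, hMt⟩ hle) hle
      have hsim := Pool.Agent.Helper84.ML.simple_quot N hNt hmax
      have hcN : Nat.card N < Nat.card G := by
        apply lt_of_le_of_ne (Subgroup.card_le_card_group N)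
        intro h
        exact hNt (Subgroup.eq_top_of_card_eq N h)
      have hdN : Nat.card N ∣ Nat.card G := Subgroup.card_subgroup_dvd_card N
      have hoddN : Odd (Nat.card N) := Odd.of_dvd_nat hodd hdN
      have hsolN : Group.IsSolvable N :=
        ih (Nat.card N) (hn ▸ hcN) N rfl ((hypG_inh C G hC).1 N hNn) hoddN
      have hdQ : Nat.card (G ⧸ N) ∣ Nat.card G := Subgroup.card_quotient_dvd_card N
      have hoddQ : Odd (Nat.card (G ⧸ N)) := Odd.of_dvd_nat hodd hdQ
      have hsolQ : Group.IsSolvable (G ⧸ N) :=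
        simple_oddG C (G ⧸ N) hsim ((hypG_inh C G hC).2.1 N) hoddQ
      exact (Group.isSolvable_iff_subgroup_quotient N).2 ⟨hsolN, hsolQ⟩

/-- the general reduction theorem -/
theorem mainG (C : ℝ) (hC : 6 ≤ C) : ∀ (G : Type) [Group G] [Finite G], HypG C G → TS G →
    Good C G := by
  suffices key : ∀ n : ℕ, ∀ (G : Type) [Group G] [Finite G], Nat.card G = n → HypG C G → TS G →
      Good C G by
    intro G _ _ h1 h2
    exact key _ G rfl h1 h2
  intro n
  induction n using Nat.strong_induction_on with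
  | _ n ih =>
  intro G _ _ hn hH hTS
  classical
  obtain ⟨hHsub, hHquot, hHself⟩ := hypG_inh C G hH
  by_cases hA : ∃ K : Subgroup G, K.Normal ∧ TS K ∧ K ≠ ⊥ ∧ K ≠ ⊤
  · obtain ⟨K, hKn, hKT, hb, htop⟩ := hA
    have hc := card_quot K
    have hK1 : 1 < Nat.card K := by
      rw [Subgroup.one_lt_card_iff_ne_bot]; exact hb
    have hQ1 : 1 < Nat.card (G ⧸ K) := by
      have : Nat.card (G ⧸ K) ≠ 1 := fun h => htop (Subgroup.index_eq_one.1 h)
      have : 0 < Nat.card (G ⧸ K) := Nat.card_pos
      omega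
    obtain ⟨k1, hk1, hb1⟩ := ih (Nat.card K) (by rw [← hn, hc]; nlinarith) K rfl
      (hHsub K hKn) hKT
    obtain ⟨k2, hk2, hb2⟩ := ih (Nat.card (G ⧸ K)) (by rw [← hn, hc]; nlinarith) (G ⧸ K) rfl
      (hHquot K) (hTS.quot K)
    refine ⟨k1 + k2, mix_ext K hk1 hk2, ?_⟩
    rw [logb_card_quot K]
    push_cast
    linarith
  have hHH : ∀ K : Subgroup G, K.Normal → TS K → K = ⊥ ∨ K = ⊤ := by
    intro K hK hT
    by_contra hcon
    push Not at hcon
    exact hA ⟨K, hK, hT, hcon.1, hcon.2⟩
  have hodd : ∀ K : Subgroup G, K.Normal → K ≠ ⊤ → Odd (Nat.card K) :=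
    fun K hK hne => odd_of_proper hHH hK hne
  -- the step
  have hstep : StepP G → Good C G := by
    rintro ⟨M, hMn, hMne, m, hm, hF⟩
    have hM1 : 1 < Nat.card M := by
      rw [Subgroup.one_lt_card_iff_ne_bot]; exact hMne
    have hc := card_quot M
    have hQ1 : 0 < Nat.card (G ⧸ M) := Nat.card_pos
    obtain ⟨k1, hk1, hb1⟩ := ih (Nat.card (G ⧸ M)) (by rw [← hn, hc]; nlinarith) (G ⧸ M) rfl
      (hHquot M) (hTS.quot M)
    obtain ⟨F, _, hF2⟩ := mix_stage M hk1
    obtain ⟨F', hr, hs⟩ := hF F
    refine ⟨k1 + m, hF2 _ F' hr hs, ?_⟩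
    have h1 := le_of_pow hC (logb_card_nonneg M) (log_of_pow (Nat.card_pos (α := M)) hm)
    rw [logb_card_quot M]
    push_cast
    linarith
  by_cases hG1 : Nat.card G = 1
  · refine ⟨0, ?_, by
      have := logb_card_nonneg G
      have : 0 ≤ C * Real.logb 2 (Nat.card G) := mul_nonneg (by linarith) this
      simpa using this⟩
    have hsub : Subsingleton G := (Nat.card_eq_one_iff_unique.1 hG1).1
    have : dlt G = uni G := by
      funext x
      simp [dlt, uni, Subsingleton.elim x 1]
    unfold Mix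
    rw [this]
    exact Reach.refl _
  have hev : Even (Nat.card G) := by
    by_contra hne
    rw [Nat.not_even_iff_odd] at hne
    have h1 : (⊥ : Subgroup G) = ⊤ := hTS ⊥ inferInstance (by rw [Subgroup.index_bot]; exact hne)
    apply hG1
    have h2 : (⊥ : Subgroup G).index = 1 := by rw [h1, Subgroup.index_top]
    rwa [Subgroup.index_bot] at h2
  have hbt : (⊥ : Subgroup G) ≠ ⊤ := by
    intro h
    apply hG1
    have h2 : (⊥ : Subgroup G).index = 1 := by rw [h, Subgroup.index_top]
    rwa [Subgroup.index_bot] at h2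
  obtain ⟨t, ht, htne⟩ := exists_inv hev
  have ht1 : Subgroup.normalClosure {t} = ⊤ := by
    by_contra hne
    have h1 := hodd _ inferInstance hne
    exact htne (odd_sq h1 (Subgroup.subset_normalClosure (Set.mem_singleton t)) ht)
  -- a largest proper normal subgroup
  obtain ⟨M, ⟨hMn, hMtop⟩, hMmax⟩ : ∃ M : Subgroup G, (M.Normal ∧ M ≠ ⊤) ∧
      ∀ K : Subgroup G, K.Normal ∧ K ≠ ⊤ → Nat.card K ≤ Nat.card M := by
    have hfin : Set.Finite {K : Subgroup G | K.Normal ∧ K ≠ ⊤} := Set.toFinite _
    obtain ⟨M, hM, hmax⟩ := Set.exists_max_image _ (fun K : Subgroup G => Nat.card K) hfin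
      ⟨⊥, inferInstance, hbt⟩
    exact ⟨M, hM, fun K hK => hmax K hK⟩
  have hModd : Odd (Nat.card M) := hodd M hMn hMtop
  have hle : ∀ K : Subgroup G, K.Normal → K ≠ ⊤ → K ≤ M := by
    intro K hK hKt
    have hKodd := hodd K hK hKt
    have h1 : Nat.card (M ⊔ K : Subgroup G) = Nat.card M * M.relIndex K := by
      have e1 : (⊥ : Subgroup G).relIndex M * M.relIndex (M ⊔ K) = (⊥ : Subgroup G).relIndex (M ⊔ K) :=
        Subgroup.relIndex_mul_relIndex _ _ _ bot_le le_sup_left
      rw [Subgroup.relIndex_bot_left, Subgroup.relIndex_bot_left, Subgroup.relIndex_sup_left] at e1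
      exact e1.symm
    have h2 : Odd (Nat.card (M ⊔ K : Subgroup G)) := by
      rw [h1]
      exact hModd.mul (hKodd.of_dvd_nat (M.relIndex_dvd_card K))
    have h3 : (M ⊔ K : Subgroup G) ≠ ⊤ := by
      intro h
      rw [h, Subgroup.card_top] at h2
      exact (Nat.not_even_iff_odd.2 h2) hev
    have h4 := hMmax (M ⊔ K) ⟨inferInstance, h3⟩
    have h5 : M = M ⊔ K := Subgroup.eq_of_le_of_card_ge le_sup_left h4
    rw [h5]
    exact le_sup_right
  have hMsol : Group.IsSolvable M := solG C _ M rfl (hHsub M hMn) hModd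
  by_cases hcomm : commutator G = ⊤
  · have hcen : Subgroup.center G ≠ ⊤ := by
      intro h
      apply hbt
      rw [← hcomm, eq_comm, commutator_def, Subgroup.commutator_eq_bot_iff_le_centralizer]
      intro x _
      rw [Subgroup.mem_centralizer_iff]
      intro y _
      have hx : x ∈ Subgroup.center G := by rw [h]; exact Subgroup.mem_top x
      exact Subgroup.mem_center_iff.1 hx y
    by_cases hMc : M ≤ Subgroup.center G
    · have hMeq : Subgroup.center G = M := le_antisymm (hle _ inferInstance hcen) hMc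
      have hQO : QO G := by
        refine ⟨hcomm, ?_, by rw [hMeq]; exact hModd⟩
        have hnt : Nontrivial (G ⧸ Subgroup.center G) := by
          rw [← Finite.one_lt_card_iff_nontrivial]
          have h1 : Nat.card (G ⧸ Subgroup.center G) ≠ 1 := fun h => hcen (Subgroup.index_eq_one.1 h)
          have h2 : 0 < Nat.card (G ⧸ Subgroup.center G) := Nat.card_pos
          omega
        refine { exists_pair_ne := hnt.exists_pair_ne, eq_bot_or_eq_top_of_normal := ?_ }
        intro N hN
        by_cases hNt : N.comap (QuotientGroup.mk' (Subgroup.center G)) = ⊤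
        · right
          have h1 : (N.comap (QuotientGroup.mk' (Subgroup.center G))).index = N.index :=
            Subgroup.index_comap_of_surjective N (QuotientGroup.mk'_surjective _)
          rw [hNt, Subgroup.index_top] at h1
          exact Subgroup.index_eq_one.1 h1.symm
        · left
          have h1 := hle _ (hN.comap _) hNt
          rw [← hMeq] at h1
          rw [eq_bot_iff]
          intro y hy
          obtain ⟨x, rfl⟩ := QuotientGroup.mk'_surjective (Subgroup.center G) y
          have hx : x ∈ Subgroup.center G := h1 hy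
          rw [Subgroup.mem_bot, QuotientGroup.mk'_apply]
          exact (QuotientGroup.eq_one_iff x).2 hx
      rcases hHself hQO with h | h
      · exact hstep h
      · exact h
    · obtain ⟨A, hAn, hAodd, hAA, hex⟩ := pSTR G hodd t ht ht1 hcen M hMn hMtop hMsol hMc
      exact hstep (pSTEP G hodd hcen t ht A hAn hAodd hAA hex)
  · -- solvable
    have hcM : commutator G ≤ M := hle _ inferInstance hcomm
    have hQ : Group.IsSolvable (G ⧸ M) := by
      apply Group.isSolvable_of_comm
      intro a b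
      obtain ⟨x, rfl⟩ := QuotientGroup.mk'_surjective M a
      obtain ⟨y, rfl⟩ := QuotientGroup.mk'_surjective M b
      rw [← map_mul, ← map_mul, QuotientGroup.mk'_apply, QuotientGroup.mk'_apply, QuotientGroup.eq]
      apply hcM
      have e : (x * y)⁻¹ * (y * x) = ⁅y⁻¹, x⁻¹⁆ := by rw [commutatorElement_def]; group
      rw [e, commutator_def]
      exact Subgroup.commutator_mem_commutator (Subgroup.mem_top _) (Subgroup.mem_top _)
    have hsol : Group.IsSolvable G := by
      apply Group.isSolvable_of_ker_le_range M.subtype (QuotientGroup.mk' M)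
      rw [QuotientGroup.ker_mk', Subgroup.range_subtype]
    obtain ⟨k, hk, hb⟩ := main _ G rfl hsol hTS
    exact ⟨k, hk, le_of_pow hC (logb_card_nonneg G) (log_of_pow Nat.card_pos (hb.trans (wt_le _)))⟩

/-- conclusion for mixability and mixing length -/
theorem finG (C : ℝ) (hC : 6 ≤ C) (G : Type) [Group G] [Finite G] (h : HypG C G) (hTS : TS G) :
    Mixable G ∧ (mixlen G : ℝ) ≤ C * Real.logb 2 (Nat.card G) := by
  obtain ⟨k, hk, hb⟩ := mainG C hC G h hTS
  obtain ⟨j, hj, hjm⟩ := exists_isMixing hk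
  have hle : mixlen G ≤ k := (Nat.sInf_le hjm).trans hj
  exact ⟨⟨j, hjm⟩, le_trans (by exact_mod_cast hle) hb⟩

/-- The hypothesis from a hypothesis on the nonabelian simple sections. `P` is a property of simple groups;
quasisimple groups with odd centre over a group with `P` are good. -/
theorem hypG_of_simple (C : ℝ) (P : (S : Type) → [Group S] → Prop)
    (hP : ∀ (Q : Type) [Group Q] [Finite Q], QO Q → P (Q ⧸ Subgroup.center Q) → StepP Q ∨ Good C Q)
    (hPiso : ∀ (S S' : Type) [Group S] [Group S'], Nonempty (S ≃* S') → P S → P S')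
    (G : Type) [Group G] [Finite G]
    (h : ∀ H : Subgroup G, H.IsSubnormal → ∀ (N : Subgroup H) [N.Normal],
      IsSimpleGroup (H ⧸ N) → (¬ ∀ a b : H ⧸ N, a * b = b * a) → P (H ⧸ N)) : HypG C G := by
  intro H hH N hN hQO
  apply hP (H ⧸ N) hQO
  obtain ⟨hder, hsim, -⟩ := hQO
  let N' : Subgroup H := (Subgroup.center (H ⧸ N)).comap (QuotientGroup.mk' N)
  let f : H →* (H ⧸ N) ⧸ Subgroup.center (H ⧸ N) :=
    (QuotientGroup.mk' (Subgroup.center (H ⧸ N))).comp (QuotientGroup.mk' N)
  have hf : Function.Surjective f := by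
    intro y
    obtain ⟨z, rfl⟩ := QuotientGroup.mk'_surjective (Subgroup.center (H ⧸ N)) y
    obtain ⟨x, rfl⟩ := QuotientGroup.mk'_surjective N z
    exact ⟨x, rfl⟩
  have e : H ⧸ f.ker ≃* (H ⧸ N) ⧸ Subgroup.center (H ⧸ N) :=
    QuotientGroup.quotientKerEquivOfSurjective f hf
  have hs : IsSimpleGroup (H ⧸ f.ker) := e.isSimpleGroup
  refine hPiso (H ⧸ f.ker) _ ⟨e⟩ (h H hH f.ker hs ?_)
  intro hcomm
  -- the central quotient is abelian and perfect
  have h1 : ∀ a b : (H ⧸ N) ⧸ Subgroup.center (H ⧸ N), a * b = b * a := by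
    intro a b
    have := congrArg e (hcomm (e.symm a) (e.symm b))
    simpa using this
  have h2 : commutator (H ⧸ N) ≤ Subgroup.center (H ⧸ N) := by
    rw [commutator_def, Subgroup.commutator_le]
    intro a _ b _
    have h3 := h1 (QuotientGroup.mk' _ a) (QuotientGroup.mk' _ b)
    rw [← QuotientGroup.eq_one_iff]
    have h4 : ((⁅a, b⁆ : H ⧸ N) : (H ⧸ N) ⧸ Subgroup.center (H ⧸ N)) =
        ⁅QuotientGroup.mk' (Subgroup.center (H ⧸ N)) a, QuotientGroup.mk' (Subgroup.center (H ⧸ N)) b⁆ := by
      rw [← map_commutatorElement]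
      rfl
    rw [h4, commutatorElement_eq_one_iff_mul_comm]
    exact h3
  rw [hder] at h2
  have h5 : Subgroup.center (H ⧸ N) = ⊤ := top_le_iff.1 h2
  have hnt : Nontrivial ((H ⧸ N) ⧸ Subgroup.center (H ⧸ N)) := hsim.toNontrivial
  exact (QuotientGroup.nontrivial_iff.1 hnt) h5

end Pool.Agent.Helper70.ML
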