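import Pool.Agent.Helper75.MX.Final

/-!
# Project ML (MP_a2f62e_al): mixing length, reduction to quasisimple groups; alternating groups

THEOREM. Let `C ≥ 6` and `G` a finite group. Suppose that every quasisimple section `Q = H/N` (`H` subnormal in `G`,
`N` normal in `H`) whose centre has odd order and whose simple quotient is not an alternating group is mixable with
`mixlen Q ≤ C log₂ |Q|`. Then `G` is mixable iff it has no nontrivial quotient of odd order, and then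
`mixlen G ≤ C log₂ |G|`.

Tools: `Pool/Agent/Helper75/MX` (`L`, `lz`, `app`, `Ok`, `Reach`, `stab`, `av`, `reach_av`, `stage_comm`, `stage_abel`,
`dlt`, `uni`, `Mix`, `mix_ext`, `mix_stage`, `TS`, `TS.quot`, `odd_of_proper`, `odd_sq`, `structure_q`, `cost_bound`,
`main`). `Helper75.MX.main` is the theorem for solvable groups; its proof (file Main.lean) is the model for the modules
STR, STEP and MAIN: many paragraphs can be copied.
-/

set_option autoImplicit false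

namespace Pool.Agent.Helper70.ML

open Pool.Agent.Helper75.MX
open scoped commutatorElement Nat

/-- quasisimple with centre of odd order -/
def QO (Q : Type) [Group Q] : Prop :=
  commutator Q = ⊤ ∧ IsSimpleGroup (Q ⧸ Subgroup.center Q) ∧ Odd (Nat.card (Subgroup.center Q))

/-- the central quotient is an alternating group of degree at least five -/
def AltQ (Q : Type) [Group Q] : Prop :=
  ∃ n : ℕ, 5 ≤ n ∧ Nonempty ((Q ⧸ Subgroup.center Q) ≃* alternatingGroup (Fin n))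

/-- uniform after at most `C log₂ |G|` lazy steps -/
def Good (C : ℝ) (G : Type) [Group G] : Prop :=
  ∃ k : ℕ, Mix G k ∧ (k : ℝ) ≤ C * Real.logb 2 (Nat.card G)

/-- the hypothesis on the quasisimple sections -/
def Hyp (C : ℝ) (G : Type) [Group G] : Prop :=
  ∀ H : Subgroup G, H.IsSubnormal → ∀ (N : Subgroup H) [N.Normal],
    QO (H ⧸ N) → ¬ AltQ (H ⧸ N) → Good C (H ⧸ N)

/-- some nontrivial normal subgroup `M` can be averaged over cheaply -/
def StepP (G : Type) [Group G] : Prop :=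
  ∃ M : Subgroup G, M.Normal ∧ M ≠ ⊥ ∧ ∃ m : ℕ, 2 ^ m ≤ Nat.card M ^ 6 ∧
    ∀ F : G → ℝ, ∃ F' : G → ℝ, Reach m F F' ∧ M ≤ stab F'

/-- lazy step on functions on a set on which `G` acts -/
def lzX {G X : Type} [Group G] [MulAction G X] (g : G) (p : ℝ) (μ : X → ℝ) : X → ℝ :=
  fun x => (1 - p) * μ x + p * μ (g⁻¹ • x)

/-- apply a list of lazy steps, the head of the list last -/
def apX {G X : Type} [Group G] [MulAction G X] (l : List (G × ℝ)) (μ : X → ℝ) : X → ℝ :=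
  l.foldr (fun a μ => lzX a.1 a.2 μ) μ

/-! ## Part R: reduction -/

/-- ISO. Invariance under isomorphisms.
PROOF. `Mix`: a list `l` for `G` is mapped by `e` to a list for `G'`; `dlt`, `uni`, `app` correspond under
composition with `e.symm` (compare `app_comp` in `Helper75/MX/Comb.lean`), `Nat.card` agrees (`Nat.card_congr`). `QO`,
`AltQ`: the centre is mapped to the centre (`Subgroup.centerCongr`; quotient: `QuotientGroup.congr`). -/
def StISO : Prop := ∀ (G G' : Type) [Group G] [Group G'], Nonempty (G ≃* G') →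
  (∀ k, Mix G k → Mix G' k) ∧ (∀ C, Good C G → Good C G') ∧ (QO G → QO G') ∧ (AltQ G → AltQ G')

/-- HYP. The hypothesis is inherited by normal subgroups and quotients.
PROOF. (1) `H ≤ K` subnormal in `K`; `H' = H.map K.subtype` is subnormal in `K`-image, hence in `G`
(`Subgroup.IsSubnormal`, file `Mathlib/GroupTheory/IsSubnormal.lean`: `trans`, `of_subgroupOf`, ... or induction on
`IsSubnormal`), `H ≃* H'` (`Subgroup.equivMapOfInjective`), a normal subgroup `N` of `H` corresponds to `N'` of `H'`,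
`H ⧸ N ≃* H' ⧸ N'` (`QuotientGroup.congr`); use ISO. (2) `H ≤ G ⧸ M` subnormal, `H' = H.comap (QuotientGroup.mk' M)`
subnormal in `G` (`IsSubnormal.comap` or induction), the homomorphism `H' → H → H ⧸ N` is surjective, `N'` its kernel,
`H' ⧸ N' ≃* H ⧸ N` (`QuotientGroup.quotientKerEquivOfSurjective`). (3) `H = ⊤`, `N = ⊥` and `(⊤ ⧸ ⊥) ≃* G`
(`QuotientGroup.quotientBot`, `Subgroup.topEquiv`). -/
def StHYP : Prop := ∀ (C : ℝ) (G : Type) [Group G] [Finite G], Hyp C G →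
  (∀ K : Subgroup G, K.Normal → Hyp C K) ∧ (∀ (M : Subgroup G) [M.Normal], Hyp C (G ⧸ M)) ∧
    (QO G → ¬ AltQ G → Good C G)

/-- SOL. Groups of odd order with the hypothesis are solvable (no use of Feit-Thompson).
PROOF. Strong induction on `|G|`. `G` trivial: solvable. Otherwise let `N ≠ ⊤` be a maximal proper normal subgroup
(finite lattice), `G ⧸ N` is simple (`IsSimpleGroup`; normal subgroups of `G ⧸ N` correspond to normal subgroups of `G`
above `N`: `Subgroup.comap_map_eq`, ...). `Hyp C N` and `Hyp C (G ⧸ N)` by HYP, `N` is solvable by induction. If `G ⧸ N` is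
commutative, `G` is solvable (`solvable_of_ker_le_range` or `solvable_of_solvable_quotient`...). Otherwise `Q = G ⧸ N` is
nonabelian simple: its commutator subgroup is normal and not `⊥`, so `⊤`; its centre is normal and not `⊤`, so `⊥`, of order
`1`, odd; `Q ⧸ center ≃* Q` is simple: `QO Q`. `¬ AltQ Q`: `|Q|` is odd (divides `|G|`) and `|alternatingGroup (Fin n)| = n!/2`
is even for `n ≥ 5` (`two_mul_nat_card_alternatingGroup`). HYP (3) for `Q`: `Good C Q`, so `Mixable Q` (`exists_isMixing`),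
`ts_of_mixable`: `TS Q`, applied to `⊥` (index `|Q|` odd): `⊥ = ⊤`, contradiction to simplicity. -/
def StSOL : Prop := ∀ (C : ℝ) (G : Type) [Group G] [Finite G], Hyp C G → Odd (Nat.card G) → Group.IsSolvable G

/-- STR. The structure of a minimal configuration.
PROOF. As `structure_A` (`Helper75/MX/Main.lean`). Put `D 0 = M`, `D (i+1) = ⁅D i, D i⁆` (normal subgroups of `G`;
`D i = (derivedSeries M i).map M.subtype`, `Subgroup.map_commutator`), `D n = ⊥` for some `n` as `M` is solvable. Let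
`n` be the least number with `D n ≤ center G`; `n ≠ 0`; `A = D (n-1)`: normal, not central, `⁅A, A⁆ ≤ center G`, `A ≤ M ≠ ⊤`,
so odd. The rest (existence of `a = t b t⁻¹ b⁻¹ ∉ center G` with `b ∈ A`) is word for word the second half of the proof of
`structure_A`. -/
def StSTR : Prop := ∀ (G : Type) [Group G] [Finite G],
  (∀ K : Subgroup G, K.Normal → K ≠ ⊤ → Odd (Nat.card K)) →
  ∀ t : G, t * t = 1 → Subgroup.normalClosure {t} = ⊤ → Subgroup.center G ≠ ⊤ →
  ∀ M : Subgroup G, M.Normal → M ≠ ⊤ → Group.IsSolvable M → ¬ M ≤ Subgroup.center G →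
  ∃ A : Subgroup G, A.Normal ∧ Odd (Nat.card A) ∧ ⁅A, A⁆ ≤ Subgroup.center G ∧
    ∃ a ∈ A, t * a * t⁻¹ = a⁻¹ ∧ a ∉ Subgroup.center G

/-- STEP. PROOF. The second half of the proof of `main` (`Helper75/MX/Main.lean`, from
`obtain ⟨q, a, ...⟩ := structure_q`): if `a` commutes with all its conjugates, `M = normalClosure {a}` and `stage_abel`
with `m = (Nat.log q (Nat.card M)) * (1 + cost q)` (`q ^ k ≤ card M` gives `k ≤ Nat.log q (card M)`, `Reach.mono`;
`2 ^ (1 + cost q) ≤ 2 ^ (2 + 2 cost q) ≤ q ^ 6` by `cost_bound`, `q ^ Nat.log q (card M) ≤ card M`); otherwise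
`M = zpowers z`, `z = [a, g a g⁻¹]` central of order `q`, and `stage_comm` with `m = 2 + 2 * cost q`. -/
def StSTEP : Prop := ∀ (G : Type) [Group G] [Finite G],
  (∀ K : Subgroup G, K.Normal → K ≠ ⊤ → Odd (Nat.card K)) → Subgroup.center G ≠ ⊤ →
  ∀ t : G, t * t = 1 → ∀ A : Subgroup G, A.Normal → Odd (Nat.card A) → ⁅A, A⁆ ≤ Subgroup.center G →
  (∃ a ∈ A, t * a * t⁻¹ = a⁻¹ ∧ a ∉ Subgroup.center G) → StepP G

/-- ALT. Quasisimple groups with odd centre and alternating quotient. (See part A.) -/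
def StALT : Prop := ∀ (G : Type) [Group G] [Finite G], QO G → AltQ G → StepP G ∨ Good 6 G

/-- MAIN. PROOF. Strong induction on `|G|`, as `main` in `Helper75/MX/Main.lean`. (1) If there is a normal `K` with `TS K`,
`K ≠ ⊥, ⊤`: `Hyp C K`, `Hyp C (G ⧸ K)` (HYP), `TS.quot`, induction and `mix_ext`; `log₂` is additive (`card_quot`).
(2) Otherwise all proper normal subgroups are odd (`odd_of_proper`). `|G| = 1`: `k = 0`. `|G|` is even (otherwise `TS G`
for `⊥`). Take an involution `t` (`exists_inv`); its normal closure is `⊤`. Let `M` be a maximal proper normal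
subgroup. Every proper normal subgroup `M'` is contained in `M`: otherwise `M ⊔ M' = ⊤` and `|G|` divides `|M| |M'|`
(`Subgroup.card_mul_card_eq...` or index: `(M ⊔ M').index...`), odd. `M` is odd, so solvable (HYP (1), SOL).
(3) `M` not central and `center G ≠ ⊤`: STR, STEP give `StepP G`. (4) `StepP G`: `M₁ ≠ ⊥`, `G ⧸ M₁` is smaller, `TS.quot`,
HYP (2), induction, `mix_stage`: `k₁ + m`, `m ≤ 6 log₂ |M₁| ≤ C log₂ |M₁|`. (5) `center G = ⊤` or `commutator G ≠ ⊤`: then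
`commutator G ≤ M`, `G ⧸ M` is commutative, `G` is solvable and `Helper75.MX.main` gives `2 ^ k ≤ wt |G| ≤ |G| ^ 6`.
(6) `M ≤ center G`, `commutator G = ⊤`, `center G ≠ ⊤`: `center G ≤ M`, so `M = center G` is odd, `G ⧸ center G` is simple
(its normal subgroups pull back to normal subgroups above `M`): `QO G`. If `AltQ G`: ALT (`Good 6 G → Good C G`, as
`log₂ |G| ≥ 0`) or (4). If not: HYP (3). -/
def StMAIN : Prop := ∀ (C : ℝ), 6 ≤ C → ∀ (G : Type) [Group G] [Finite G], Hyp C G → TS G → Good C G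

/-- FIN. PROOF. `Hyp C G` from the hypothesis: `Mixable Q` and `mixlen Q ≤ C log₂ |Q|` give `Good C Q` with
`k = mixlen Q` (`Nat.sInf_mem`, `isMixing_iff`). `ts_of_mixable` for one direction; MAIN and `exists_isMixing` for
the other; `mixlen G ≤ k` by `Nat.sInf_le`. -/
def StFIN : Prop := ∀ (C : ℝ), 6 ≤ C → ∀ (G : Type) [Group G] [Finite G],
  (∀ H : Subgroup G, H.IsSubnormal → ∀ (N : Subgroup H) [N.Normal],
    commutator (H ⧸ N) = ⊤ → IsSimpleGroup ((H ⧸ N) ⧸ Subgroup.center (H ⧸ N)) →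
    Odd (Nat.card (Subgroup.center (H ⧸ N))) →
    (¬ ∃ n : ℕ, 5 ≤ n ∧ Nonempty (((H ⧸ N) ⧸ Subgroup.center (H ⧸ N)) ≃* alternatingGroup (Fin n))) →
    Mixable (H ⧸ N) ∧ (mixlen (H ⧸ N) : ℝ) ≤ C * Real.logb 2 (Nat.card (H ⧸ N))) →
  (Mixable G ↔ ∀ N : Subgroup G, N.Normal → Odd N.index → N = ⊤) ∧
    (Mixable G → (mixlen G : ℝ) ≤ C * Real.logb 2 (Nat.card G))

/-! ## Part A: alternating groups -/

/-- ORB. Orbit lemma. PROOF. `Φ μ = (1/|H|) ∑_{k ∈ K} μ (k • x₀) • L k f`. Linearity is clear; `L g (L k f) = L (g k) f`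
(`L_mul`) and the substitution `k ↦ g k` give (3). (4): the sum runs over the `k ∈ K` with `k • x₀ = h • x₀`, `h ∈ H`; then
`h⁻¹ k` fixes `x₀`, so is in `H`, `k ∈ H`, `L k f = f`: the sum is `|H| f`. (5): `Φ μ = (c/|H|) ∑_{k ∈ K} L k f`. -/
def StORB : Prop := ∀ (G X : Type) [Group G] [Finite G] [MulAction G X] (K H : Subgroup G), H ≤ K →
  ∀ x₀ : X, (∀ k ∈ K, k • x₀ = x₀ → k ∈ H) → ∀ f : G → ℝ, H ≤ stab f →
  ∃ Φ : (X → ℝ) → (G → ℝ), (∀ μ ν, Φ (μ + ν) = Φ μ + Φ ν) ∧ (∀ (c : ℝ) μ, Φ (c • μ) = c • Φ μ) ∧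
    (∀ g ∈ K, ∀ μ, L g (Φ μ) = Φ (fun x => μ (g⁻¹ • x))) ∧
    (∀ μ, (∀ k ∈ K, (k ∈ H → μ (k • x₀) = 1) ∧ (k ∉ H → μ (k • x₀) = 0)) → Φ μ = f) ∧
    (∀ μ (c : ℝ), (∀ k ∈ K, μ (k • x₀) = c) → K ≤ stab (Φ μ))

/-- MO. Mixing from a point stabiliser.
PROOF. The list for `H = stabilizer` gives in `G` from `dlt G` the function `f = (1/|H|) 1_H` (`ext0`, `ext0_app` of
`Helper75/MX/Comb.lean`), `H ≤ stab f`. ORB with `K = ⊤`: `Φ δ = f` for the indicator function `δ` of `x₀`, and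
`lz g p (Φ μ) = Φ (lzX g p μ)`, so the list `l` leads from `f` to `Φ (apX l δ)`, `Φ` of a constant function, whose
stabiliser is everything, so it is constant, `= uni G` (a lazy step does not change the sum, the sum of `dlt G` is
`1`). -/
def StMO : Prop := ∀ (G X : Type) [Group G] [Finite G] [MulAction G X] (x₀ : X) (k m : ℕ) (c : ℝ),
  Mix (MulAction.stabilizer G x₀) k →
  (open Classical in ∃ l : List (G × ℝ), l.length ≤ m ∧ Ok l ∧
    apX l (fun x : X => if x = x₀ then (1 : ℝ) else 0) = fun _ => c) → Mix G (k + m)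

/-- PT0. From one point to `|A|` points, arbitrary permutations supported in `A`.
PROOF. `len` is the function with `len 1 = 0`, `len (2k) = len k + 1`, `len (2k+1) = len k + 2`, so `len m ≤ 2 log₂ m`;
prove the statement with a list of length `≤ len |A|`, strong induction on `|A|`. `|A| = 1`: empty list. `|A| = 2k`,
`k ≥ 1`: choose `A' ⊆ A`, `a ∈ A'`, `|A'| = k`, the list of `A'` and finally the lazy step `(π, 1/2)` with an involution
`π` exchanging `A'` and `A \ A'` (fixing the complement of `A`): `(1/k) 1_{A'} ↦ (1/2k) 1_A`. `|A| = 2k+1`, `k ≥ 1`: first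
`(swap a a₁, 1/(2k+1))` with `a₁ ∈ A`, `a₁ ≠ a`: `δ_a ↦ (2k/(2k+1)) δ_a + (1/(2k+1)) δ_{a₁}`; then the list for
`A \ {a₁}` (`2k` points, length `len k + 1`), it fixes `a₁`. (Lazy steps are linear; a list of permutations fixing
`a₁` fixes `δ_{a₁}`.) -/
def StPT0 : Prop := ∀ (X : Type) [Fintype X] [DecidableEq X] (A : Finset X), ∀ a ∈ A,
  ∃ l : List (Equiv.Perm X × ℝ), l.length ≤ 2 * Nat.log 2 A.card ∧ Ok l ∧
    (∀ e ∈ l, ∀ x, x ∉ A → e.1 x = x) ∧
    apX l (fun x : X => if x = a then (1 : ℝ) else 0) = fun x => if x ∈ A then 1 / (A.card : ℝ) else 0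

/-- PTS. The same with even permutations, all points.
PROOF. Let `m = 2k` or `2k+1`, `k ≥ 3`. EVENIZATION: if `l` is a list of permutations supported in `A'` and `s₁ ≠ s₂` are
two points outside `A'`, replace every odd `π` by `π * swap s₁ s₂`: the effect on functions vanishing at `s₁` and `s₂` is
the same (all functions that occur vanish there). `m = 2k`: `A'` a set of `k` points containing `a`, PT0 for `A'`
(length `≤ len k`, or `2 log₂ k`), made even with two points outside `A'`; finally `(π, 1/2)`, `π` even exchanging `A'`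
and its complement (if the product of the `k` transpositions is odd multiply it by a transposition of two
points of the complement). `m = 2k+1`: first `(c, 1/(2k+1))`, `c` a 3-cycle with `c a = a₁`; then `A' ⊆ univ \ {a₁}` of
`k` points containing `a`, two spare points outside `A' ∪ {a₁}`, finally `π` fixing `a₁`. The length is at most
`2 log₂ k + 2 = 2 log₂ m`. -/
def StPTS : Prop := ∀ (m : ℕ), 6 ≤ m → ∀ a : Fin m,
  ∃ l : List (alternatingGroup (Fin m) × ℝ), l.length ≤ 2 * Nat.log 2 m ∧ Ok l ∧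
    apX l (fun x : Fin m => if x = a then (1 : ℝ) else 0) = fun _ => 1 / (m : ℝ)

/-- A5. PROOF. `r = (0 1 2 3 4)`, `s = (1 4)(2 3)`, `w = (1 2)(3 4)`, `D = ⟨r, s⟩` (order 10, solvable, `TS`:
`s` and its conjugates generate `D`), so `Mix D k`, `2 ^ k ≤ wt 10 = 2 * 5 ^ 5 * 5` (`main`), `k ≤ 14`. In `G = A₅`:
`f₀ = (1/10) 1_D` is reached from `dlt G` (`ext0_app`), `F = lz w (5/6) f₀ = (1/6) f₀ + (5/6) L w f₀`, `s w = w s`, so `L s F = F`,
and `s r s⁻¹ = r⁻¹`: `reach_av` with `q = 5` leads to `av r 5 F = (1/6) f₀ + (1/6) ∑_i L (r^i w) f₀`, which is constant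
because the six left cosets `D`, `r^i w D` are different (`decide` or: `w⁻¹ r^i w ∉ D` for `i ≠ 0`). Total
`14 + 1 + cost 5`; `2 ^ (2 + 2 cost 5) ≤ 5 ^ 6` by `cost_bound`, `2 ^ k ≤ 60 ^ 6`. -/
def StA5 : Prop := ∃ k, Mix (alternatingGroup (Fin 5)) k ∧ 2 ^ k ≤ 60 ^ 6

/-- AN. PROOF. Induction on `n`, from A5. `alternatingGroup (Fin (n+1))` acts on `Fin (n+1)`, the stabiliser of the
last point is isomorphic to `alternatingGroup (Fin n)` (embedding by `Fin.castSucc`; `Equiv.Perm.viaFintypeEmbedding`,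
`Equiv.Perm.subtypePerm`, `Equiv.Perm.decomposeFin`, or `Equiv.optionCongr` and `decomposeOption`). MO, PTS, ISO:
`k + 2 log₂ (n+1)`, `2 ^ (2 log₂ (n+1)) ≤ (n+1)² ≤ (n+1)⁶`. -/
def StAN : Prop := ∀ n, 5 ≤ n → ∃ k, Mix (alternatingGroup (Fin n)) k ∧ 2 ^ k ≤ (n ! / 2) ^ 6

/-- CAR. Carmichael's presentation of the alternating group, upper bound.
PROOF. Induction on `m`: `m = 0`: the closure of the empty set is trivial, `2!/2 = 1`. Step: `x = x_m` (the last
generator), `H` = closure of the others, `|H| ≤ (m+2)!/2`. CLAIM: `U = H ∪ H x ∪ H x⁻¹ ∪ ⋃_{i<m} H x⁻¹ x_i` (`m + 3` right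
cosets) is closed under right multiplication by all generators, so it contains the closure. `H x_j = H`, `H x`;
`H x x = H x⁻¹`; `H x x_j = H x_j⁻¹ x⁻¹ = H x⁻¹` (from `(x x_j)² = 1`); `H x⁻¹ x = H`; `H x⁻¹ x_j` is in the list;
`H x⁻¹ x_i x = H x x x_i x = H x x_i⁻¹ = H x x_i x_i = H x⁻¹ x_i` (`x x_i x = x_i⁻¹` and `x x_i = x_i⁻¹ x⁻¹`);
`H x⁻¹ x_i x_i = H x⁻¹ x_i⁻¹ = H (x_i x)⁻¹ = H x_i x = H x`; `i ≠ j`: `H x⁻¹ x_i x_j = H x⁻¹ x_j⁻¹ x_i⁻¹ = H (x_j x)⁻¹ x_i⁻¹
= H x_j x x_i⁻¹ = H x x_i x_i = H x_i⁻¹ x⁻¹ x_i = H x⁻¹ x_i`. (Inverses of the generators are their squares.) So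
`|closure| ≤ (m+3) (m+2)!/2`. -/
def StCAR : Prop := ∀ (K : Type) [Group K] [Finite K] (m : ℕ) (x : Fin m → K), (∀ i, x i ^ 3 = 1) →
  (∀ i j, i ≠ j → (x i * x j) ^ 2 = 1) →
  Nat.card (Subgroup.closure (Set.range x)) ≤ (m + 2)! / 2

/-- GEN. The 3-cycles `(0 1 i)` generate the alternating group.
PROOF. By `Equiv.Perm.closure_three_cycles_eq_alternating` it is enough to write every 3-cycle `(a b c)` as a product.
With `x_i = (0 1 i)`, `x_i⁻¹ = (0 i 1)`: `(0 i j)`, `(1 i j)`, `(i j k)` are products of these (e.g. conjugates: `x_j x_i x_j⁻¹`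
is the 3-cycle `(x_j 0, x_j 1, x_j i)`; compute). The generators are given as `c` with `c 0 = 1`, `c 1 = i`, `c i = 0`,
i.e. `c = swap 0 1 * swap 1 i` (`(swap 0 1 * swap 1 i) 0 = 1`, `1 ↦ i`, `i ↦ 0`). -/
def StGEN : Prop := ∀ (n : ℕ) (K : Subgroup (alternatingGroup (Fin (n + 2)))),
  (∀ c : alternatingGroup (Fin (n + 2)), (∃ i : Fin n, (c : Equiv.Perm (Fin (n + 2))) =
    Equiv.swap 0 1 * Equiv.swap 1 i.succ.succ) → c ∈ K) → K = ⊤

/-- CEN. The centraliser of a 3-cycle.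
PROOF. `c = (a b d)`. `π` commutes with `c`, so it maps the set `{a, b, d}` to itself and acts on it as a power `c^i`
(`π a ∈ {a, b, d}`, say `π a = c^i a`, then `π (c^j a) = c^j (π a) = c^i (c^j a)`). `π' = c^(-i) π` is even and fixes `a, b, d`.
Then `π'` is a product of 3-cycles fixing `a, b, d`: `Equiv.Perm.closure_three_cycles_eq_alternating` for the subtype
`{x // x ≠ a ∧ x ≠ b ∧ x ≠ d}` (`Equiv.Perm.subtypePerm`, `Equiv.Perm.ofSubtype`, `sign_ofSubtype`). -/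
def StCEN : Prop := ∀ (n : ℕ) (c π : alternatingGroup (Fin n)),
  (c : Equiv.Perm (Fin n)).IsThreeCycle → π * c = c * π →
  π ∈ Subgroup.closure ({c} ∪ {d : alternatingGroup (Fin n) | (d : Equiv.Perm (Fin n)).IsThreeCycle ∧
    (d : Equiv.Perm (Fin n)).Disjoint c})

/-- LIF. Lifts along a central extension with kernel of odd order.
PROOF. Square roots in the kernel: `|ker| = 2m+1`, `z = (z^(m+1))²`. (1) any lift `s` of `t`: `s² ∈ ker`, `s² = w²` with
`w ∈ ker`, `T = s w⁻¹`. (2) `T x T⁻¹ = x⁻¹ c` with `c ∈ ker`; `w² = c⁻¹`, `a = x w`: `T a T⁻¹ = x⁻¹ c w = x⁻¹ w⁻¹ = a⁻¹`. (3)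
`a³ ∈ ker` commutes with `T`, so `a³ = T a³ T⁻¹ = a⁻³`, `(a³)² = 1`, and `a³ = 1` as the order of the kernel is odd. -/
def StLIF : Prop := ∀ (G H : Type) [Group G] [Finite G] [Group H] (ψ : G →* H), Function.Surjective ψ →
  ψ.ker ≤ Subgroup.center G → Odd (Nat.card ψ.ker) →
  (∀ t : H, t * t = 1 → ∃ T : G, ψ T = t ∧ T * T = 1) ∧
  (∀ x T : G, T * T = 1 → ψ T * ψ x * (ψ T)⁻¹ = (ψ x)⁻¹ → ∃ w ∈ ψ.ker, T * (x * w) * T⁻¹ = (x * w)⁻¹) ∧
  (∀ a T : G, T * a * T⁻¹ = a⁻¹ → ψ a ^ 3 = 1 → a ^ 3 = 1) ∧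
  (∀ z ∈ ψ.ker, z * z = 1 → z = 1)

/-- NCM. Lifts of disjoint 3-cycles which do not commute. PROOF. `z = x y x⁻¹ y⁻¹ ∈ ψ.ker`, central, `≠ 1`. `ψ x = c = (i j k)`,
`ψ y` is disjoint, so `n ≥ 6`: two points `l, m` different from `i, j, k`; `t = (i j)(l m)` is even, `t² = 1`, `t c t⁻¹ = c⁻¹`.
LIF: `T`, `w`; `a = x w`, `T a T⁻¹ = a⁻¹`, `a³ = 1`, `a y a⁻¹ y⁻¹ = z`. `z³ = [a³, y] = 1` (as `z` is central, `a y = z y a`).
`stage_comm` with `q = 3`, `n = y`: `m = 2 + 2 * cost 3`, `2 ^ m ≤ 3 ^ 6` (`cost_bound`), `M = zpowers z`, of order 3. -/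
def StNCM : Prop := ∀ (n : ℕ) (G : Type) [Group G] [Finite G] (ψ : G →* alternatingGroup (Fin n)),
  Function.Surjective ψ → ψ.ker ≤ Subgroup.center G → Odd (Nat.card ψ.ker) →
  (∃ x y : G, ((ψ x : alternatingGroup (Fin n)) : Equiv.Perm (Fin n)).IsThreeCycle ∧
    ((ψ y : alternatingGroup (Fin n)) : Equiv.Perm (Fin n)).IsThreeCycle ∧
    ((ψ x : alternatingGroup (Fin n)) : Equiv.Perm (Fin n)).Disjoint (ψ y : alternatingGroup (Fin n)) ∧
    x * y ≠ y * x) → StepP G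

/-- REL. Canonical lifts satisfy Carmichael's relations.
PROOF. Call `y ∈ G` canonical if `ψ y` is a 3-cycle and `T y T⁻¹ = y⁻¹` for some `T` with `T * T = 1`. (U) Canonical `y, y'`
with `ψ y = ψ y' = c` are equal: `y' = y ζ`, `ζ ∈ ker`; `T y T⁻¹ = y⁻¹`, `T' y T'⁻¹ = y⁻¹ ζ⁻²`; `g = T' T⁻¹`: `ψ g` commutes with
`c`; by CEN and the hypothesis (`x` and `y` commute if `ψ x`, `ψ y` are disjoint 3-cycles; every element of `G` over
`closure({c} ∪ ...)` commutes with `y`: `Subgroup.closure_induction`) `g` commutes with `y`, so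
`y⁻¹ = g y⁻¹ g⁻¹ = T' (T⁻¹ y⁻¹ T) T'⁻¹ = T' y T'⁻¹ = y⁻¹ ζ⁻²`, `ζ² = 1`, `ζ = 1` (LIF (4)). (E) every 3-cycle `c` has a canonical
lift (`n ≥ 5`: `t` as in NCM; LIF). (C) conjugates and inverses of canonical elements are canonical. Let `x_i` be
the canonical lift of `c_i = (0 1 i)` (`c_i = swap 0 1 * swap 1 i`). `x_i³ = 1` by LIF (3). `i ≠ j`: `g` a lift of
`(0 1)(i j)`: `g c_i g⁻¹ = c_j⁻¹`, `g c_j g⁻¹ = c_i⁻¹`, so by (U), (C) `g x_i g⁻¹ = x_j⁻¹`, `g x_j g⁻¹ = x_i⁻¹`.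
`z = (x_i x_j)² ∈ ker` (`c_i c_j` has square one) and `z = g z g⁻¹ = (x_j⁻¹ x_i⁻¹)² = z⁻¹`, so `z = 1`. -/
def StREL : Prop := ∀ (n : ℕ), 3 ≤ n → ∀ (G : Type) [Group G] [Finite G]
  (ψ : G →* alternatingGroup (Fin (n + 2))),
  Function.Surjective ψ → ψ.ker ≤ Subgroup.center G → Odd (Nat.card ψ.ker) →
  (∀ x y : G, ((ψ x : alternatingGroup (Fin (n + 2))) : Equiv.Perm (Fin (n + 2))).IsThreeCycle →
    ((ψ y : alternatingGroup (Fin (n + 2))) : Equiv.Perm (Fin (n + 2))).IsThreeCycle →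
    ((ψ x : alternatingGroup (Fin (n + 2))) : Equiv.Perm (Fin (n + 2))).Disjoint
      (ψ y : alternatingGroup (Fin (n + 2))) → x * y = y * x) →
  ∃ x : Fin n → G, (∀ i, ((ψ (x i) : alternatingGroup (Fin (n + 2))) : Equiv.Perm (Fin (n + 2))) =
      Equiv.swap 0 1 * Equiv.swap 1 i.succ.succ) ∧
    (∀ i, x i ^ 3 = 1) ∧ ∀ i j, i ≠ j → (x i * x j) ^ 2 = 1

end Pool.Agent.Helper70.ML
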